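import Pool.Agent.Lib.MP_f23696_ag.M2.Ctx
import Pool.Agent.Lib.MP_f23696_ag.T.Prod

/-!
Module CHD of the project MON2 (MP_f23696_ag): change of the derivations.
-/

set_option autoImplicit false

open scoped Classical Polynomial

namespace Pool.Agent.MLD.Mon

open Pool.Agent.MLD.Ten

noncomputable section

universe u v

section CHD

variable {k : Type u} {L : Type v} [Field k] [Field L] [Algebra k L]

theorem Chd.ord_jac {n : ℕ} (D D' : Fin n → Derivation k L L) (c : L) (hc : c ≠ 0)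
    (h : ∀ a, jac D' a = c * jac D a) (v : DVal k L) (a : Fin n → L) (ha : jac D a ≠ 0) :
    v.ord (jac D' a) = v.ord c + v.ord (jac D a) := by
  rw [h, v.ord_mul _ _ hc ha]

theorem Chd.ne {n : ℕ} (D D' : Fin n → Derivation k L L) (c : L) (hc : c ≠ 0)
    (h : ∀ a, jac D' a = c * jac D a) (a : Fin n → L) : jac D' a ≠ 0 ↔ jac D a ≠ 0 := by
  rw [h]
  constructor
  · exact fun h1 h2 => h1 (by rw [h2, mul_zero])
  · exact fun h1 => mul_ne_zero hc h1

theorem chd_form {n : ℕ} (D D' : Fin n → Derivation k L L) (c : L) (hc : c ≠ 0)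
    (h : ∀ a, jac D' a = c * jac D a) (v : DVal k L) (j : ℤ) :
    v.FormOrd D' j ↔ v.FormOrd D (j + v.ord c) := by
  constructor
  · rintro ⟨h1, a, ha, hj, ho⟩
    refine ⟨fun b hb hb0 => ?_, a, ha, (Chd.ne D D' c hc h a).1 hj, ?_⟩
    · have := h1 b hb ((Chd.ne D D' c hc h b).2 hb0)
      rw [Chd.ord_jac D D' c hc h v b hb0] at this
      omega
    · rw [Chd.ord_jac D D' c hc h v a ((Chd.ne D D' c hc h a).1 hj)] at ho
      omega
  · rintro ⟨h1, a, ha, hj, ho⟩
    refine ⟨fun b hb hb0 => ?_, a, ha, (Chd.ne D D' c hc h a).2 hj, ?_⟩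
    · have hb1 := (Chd.ne D D' c hc h b).1 hb0
      have := h1 b hb hb1
      rw [Chd.ord_jac D D' c hc h v b hb1]
      omega
    · rw [Chd.ord_jac D D' c hc h v a hj, ho]
      omega

theorem Chd.val_add (v : DVal k L) (γ : Lˣ →₀ ℝ) (c : L) (hc : c ≠ 0) :
    v.val (γ + Finsupp.single (Units.mk0 c hc) 1) = v.val γ + v.ord c := by
  unfold DVal.val
  rw [Finsupp.sum_add_index' (fun _ => by rw [zero_mul]) (fun _ _ _ => by rw [add_mul]),
    Finsupp.sum_single_index (by rw [zero_mul]), one_mul, Units.val_mk0]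

theorem chd_leq {n : ℕ} (D D' : Fin n → Derivation k L L) (c : L) (hc : c ≠ 0)
    (h : ∀ a, jac D' a = c * jac D a) {S : Subalgebra k L} (δ : Ideal S →₀ ℝ) (p : Ideal S)
    (γ : Lˣ →₀ ℝ) :
    IsLocalEq S D' δ p γ ↔ IsLocalEq S D δ p (γ + Finsupp.single (Units.mk0 c hc) 1) := by
  constructor
  · intro H q hq hh v hv j hj
    have h1 : v.FormOrd D' (j - v.ord c) := by
      rw [chd_form D D' c hc h]
      rwa [sub_add_cancel]
    have h2 := H q hq hh v hv _ h1
    rw [Chd.val_add]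
    push_cast at h2
    linarith
  · intro H q hq hh v hv j hj
    have h2 := H q hq hh v hv _ ((chd_form D D' c hc h v j).1 hj)
    rw [Chd.val_add] at h2
    push_cast at h2
    linarith

theorem Chd.sub_add (γ : Lˣ →₀ ℝ) (c : L) (hc : c ≠ 0) :
    (γ - Finsupp.single (Units.mk0 c hc) 1) + Finsupp.single (Units.mk0 c hc) 1 = γ := by
  rw [sub_add_cancel]

theorem chd_logDiscs {m : ℕ} (D D' : Fin (m + 1) → Derivation k L L) (c : L) (hc : c ≠ 0)
    (h : ∀ a, jac D' a = c * jac D a) {S : Subalgebra k L} (δ : Ideal S →₀ ℝ)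
    (x : MaximalSpectrum S) : logDiscs S D' δ x = logDiscs S D δ x := by
  ext l
  constructor
  · rintro ⟨v, hd, hv, j, hj, γ, hγ, rfl⟩
    refine ⟨v, hd, hv, _, (chd_form D D' c hc h v j).1 hj, _, (chd_leq D D' c hc h δ _ γ).1 hγ, ?_⟩
    rw [Chd.val_add]
    push_cast
    ring
  · rintro ⟨v, hd, hv, j, hj, γ, hγ, rfl⟩
    have h1 : v.FormOrd D' (j - v.ord c) := by
      rw [chd_form D D' c hc h]
      rwa [sub_add_cancel]
    have h2 : IsLocalEq S D' δ x.asIdeal (γ - Finsupp.single (Units.mk0 c hc) 1) := by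
      rw [chd_leq D D' c hc h, Chd.sub_add]
      exact hγ
    refine ⟨v, hd, hv, _, h1, _, h2, ?_⟩
    have h3 := Chd.val_add v (γ - Finsupp.single (Units.mk0 c hc) 1) c hc
    rw [Chd.sub_add] at h3
    push_cast
    linarith

end CHD

end

end Pool.Agent.MLD.Mon
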