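import Pool.Agent.Lib.MP_f23696_ag.M2.Ctx
import Pool.Agent.Lib.MP_f23696_ag.T.Pri
import Pool.Agent.Lib.MP_f23696_ag.T.Norm

/-!
Module CON of the project MON2 (MP_f23696_ag): basic facts of the cone.
-/

set_option autoImplicit false

open scoped Classical Polynomial

namespace Pool.Agent.MLD.Mon

open Pool.Agent.MLD.Ten

noncomputable section

universe u v

variable {k K L : Type u} [Field k] [Field K] [Field L] [Algebra k K] [Algebra k L]
  {J : Join k K (RatFunc k) L} {A : Subalgebra k K} {S : Subalgebra k L}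

section CON

theorem isProd (J : Join k K (RatFunc k) L) (A : Subalgebra k K) : IsProd J (i1 J A) (i2 J A) :=
  ⟨fun _ => rfl, fun _ => rfl, rfl⟩

theorem aa_good (k : Type u) [Field k] : IsGood (Lin.AA k) where
  fg := Lin.AA_fg
  frac := fun f => ⟨Lin.ee k f.num, Lin.ee k f.denom, Lin.im_ne (RatFunc.denom_ne_zero f),
    (RatFunc.num_div_denom f).symm⟩
  norm := fun f hf => by
    haveI := Lin.AA_frac (k := k)
    haveI := Lin.AA_norm (k := k)
    obtain ⟨y, hy⟩ := (IsIntegrallyClosed.isIntegral_iff (R := Lin.AA k)).1 hf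
    rw [← hy]
    exact y.2

theorem good2 [IsAlgClosed k] [CharZero k] (h : IsCone J A S) : IsGood (S2 J A) :=
  prod_good J (isProd J A) h.good₁ (aa_good k) _ Lin.basis_X

theorem ss_ne (J : Join k K (RatFunc k) L) : ss J ≠ 0 := by
  intro h0
  exact RatFunc.X_ne_zero (J.ψ.injective (h0.trans (map_zero J.ψ).symm))

/-- the polynomial `X` as an element of the coordinate ring of the line -/
theorem Con.coe_eX : ((Lin.ee k Polynomial.X : Lin.AA k) : RatFunc k) = RatFunc.X := by
  rw [Lin.coe_ee, Lin.im, RatFunc.algebraMap_X]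

/-- evaluation at `s = 1` -/
def Con.ev (J : Join k K (RatFunc k) L) (A : Subalgebra k K) : S2 J A →ₐ[k] A :=
  (Algebra.TensorProduct.productMap (AlgHom.id k A)
    ((Algebra.ofId k A).comp ((Polynomial.aeval (1 : k) : k[X] →ₐ[k] k).comp
      (Lin.ee k).symm.toAlgHom))).comp (Pri.eqv (isProd J A)).symm.toAlgHom

theorem Con.ev_left (a : A) : Con.ev J A (i1 J A a) = a := by
  unfold Con.ev
  change Algebra.TensorProduct.productMap _ _ ((Pri.eqv (isProd J A)).symm (i1 J A a)) = a
  have h1 : (Pri.eqv (isProd J A)).symm (i1 J A a) = a ⊗ₜ[k] (1 : Lin.AA k) := by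
    rw [AlgEquiv.symm_apply_eq]
    simp [Pri.eqv]
  rw [h1, Algebra.TensorProduct.productMap_apply_tmul, map_one, mul_one]
  rfl

theorem Con.ev_right (p : k[X]) :
    Con.ev J A (i2 J A (Lin.ee k p)) = algebraMap k A (p.eval 1) := by
  unfold Con.ev
  change Algebra.TensorProduct.productMap _ _ ((Pri.eqv (isProd J A)).symm
    (i2 J A (Lin.ee k p))) = _
  have h1 : (Pri.eqv (isProd J A)).symm (i2 J A (Lin.ee k p)) = (1 : A) ⊗ₜ[k] Lin.ee k p := by
    rw [AlgEquiv.symm_apply_eq]
    simp [Pri.eqv]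
  rw [h1, Algebra.TensorProduct.productMap_apply_tmul, map_one, one_mul]
  change algebraMap k A (Polynomial.aeval (1 : k) ((Lin.ee k).symm (Lin.ee k p))) = _
  rw [AlgEquiv.symm_apply_apply, Polynomial.coe_aeval_eq_eval]

theorem Con.incl_s (h : IsCone J A S) : h.incl h.s = i2 J A (Lin.ee k Polynomial.X) := by
  apply Subtype.ext
  change ss J = J.ψ ((Lin.ee k Polynomial.X : Lin.AA k) : RatFunc k)
  rw [Con.coe_eX]
  rfl

theorem Con.ev_s (h : IsCone J A S) : Con.ev J A (h.incl h.s) = 1 := by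
  rw [Con.incl_s, Con.ev_right, Polynomial.eval_X, map_one]

theorem Con.surj2 (J : Join k K (RatFunc k) L) (A : Subalgebra k K) :
    Function.Surjective (Con.ev J A) := fun a => ⟨i1 J A a, Con.ev_left a⟩

theorem Con.surj (h : IsCone J A S) : Function.Surjective ((Con.ev J A).comp h.incl) := by
  intro a
  obtain ⟨n, hn⟩ := h.den (i1 J A a) (i1 J A a).2
  refine ⟨⟨_, hn⟩, ?_⟩
  have h1 : h.incl ⟨_, hn⟩ = h.incl h.s ^ n * i1 J A a := by
    apply Subtype.ext
    rfl
  rw [AlgHom.comp_apply, h1, map_mul, map_pow, Con.ev_s, one_pow, one_mul, Con.ev_left]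

/-- the points of the cone with `s = 1` -/
theorem exists_pts [IsAlgClosed k] (h : IsCone J A S) :
    ∃ f : MaximalSpectrum A → MaximalSpectrum S, Continuous f ∧ ∀ x, h.Lies x (f x) := by
  let g : S →ₐ[k] A := (Con.ev J A).comp h.incl
  have hg : Function.Surjective g := Con.surj h
  let f : MaximalSpectrum A → MaximalSpectrum S := fun x =>
    ⟨x.asIdeal.comap (g : S →+* A), by
      haveI := x.isMaximal
      exact Ideal.comap_isMaximal_of_surjective (g : S →+* A) hg⟩
  refine ⟨f, ?_, fun x => ?_⟩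
  · rw [continuous_induced_rng]
    have h1 : MaximalSpectrum.toPrimeSpectrum ∘ f =
        PrimeSpectrum.comap (g : S →+* A) ∘ MaximalSpectrum.toPrimeSpectrum := by
      funext x
      apply PrimeSpectrum.ext
      rfl
    rw [h1]
    exact (PrimeSpectrum.continuous_comap (g : S →+* A)).comp
      MaximalSpectrum.toPrimeSpectrum_continuous
  · refine ⟨⟨x.asIdeal.comap (Con.ev J A : S2 J A →+* A), by
      haveI := x.isMaximal
      exact Ideal.comap_isMaximal_of_surjective (Con.ev J A : S2 J A →+* A) (Con.surj2 J A)⟩,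
      ⟨?_, ?_⟩, rfl⟩
    · ext a
      change Con.ev J A (i1 J A a) ∈ x.asIdeal ↔ a ∈ x.asIdeal
      rw [Con.ev_left]
    · ext b
      obtain ⟨p, rfl⟩ := (Lin.ee k).surjective b
      change Con.ev J A (i2 J A (Lin.ee k p)) ∈ x.asIdeal ↔ Lin.ee k p ∈ Lin.PP 1
      rw [Con.ev_right, Lin.mem_PP]
      constructor
      · intro h1
        by_contra h2
        refine x.isMaximal.ne_top (Ideal.eq_top_of_isUnit_mem _ h1 ?_)
        exact (isUnit_iff_ne_zero.2 h2).map (algebraMap k A)
      · intro h1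
        rw [h1, map_zero]
        exact x.asIdeal.zero_mem

theorem lies_s [IsAlgClosed k] (h : IsCone J A S) {x : MaximalSpectrum A} {z : MaximalSpectrum S}
    (hz : h.Lies x z) : h.s ∉ z.asIdeal := by
  obtain ⟨z₂, ⟨_, h2⟩, h3⟩ := hz
  intro h4
  rw [h3] at h4
  have h5 : h.incl h.s ∈ z₂.asIdeal := h4
  rw [Con.incl_s] at h5
  have h6 : Lin.ee k Polynomial.X ∈ z₂.asIdeal.comap (i2 J A) := h5
  rw [h2] at h6
  have h7 := (Lin.mem_PP (1 : k) Polynomial.X).1 h6
  rw [Polynomial.eval_X] at h7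
  exact one_ne_zero h7

end CON

end

end Pool.Agent.MLD.Mon
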