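import Pool.Agent.Lib.MP_f23696_ag.M2.Defs
import Pool.Agent.Lib.MP_f23696_ag.M.Ctx
import Pool.Agent.Lib.MP_f23696_ag.T.Ctx
import Pool.Agent.Lib.MP_f23696_ag.T.Lin

/-!
Internal vocabulary for the project MON2 (MP_f23696_ag): affine cones over projective embeddings.
`L` is the function field of the cone, `s` and `t = s / v` are coordinates on the rulings.
-/

set_option autoImplicit false

open scoped Classical Polynomial

namespace Pool.Agent.MLD.Mon

open Pool.Agent.MLD.Ten

noncomputable section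

universe u

variable {k K L : Type u} [Field k] [Field K] [Field L] [Algebra k K] [Algebra k L]

/-- the coordinate `s` -/
def ss (J : Join k K (RatFunc k) L) : L := J.ψ RatFunc.X

/-- the coordinate `t = s / v` -/
def tt (J : Join k K (RatFunc k) L) (v : K) : L := ss J / J.φ v

/-- the ring `A[s]` -/
def S2 (J : Join k K (RatFunc k) L) (A : Subalgebra k K) : Subalgebra k L :=
  A.map J.φ ⊔ (Lin.AA k).map J.ψ

/-- the inclusion of `A` in `A[s]` -/
def i1 (J : Join k K (RatFunc k) L) (A : Subalgebra k K) : A →ₐ[k] S2 J A :=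
  (J.φ.comp A.val).codRestrict _ fun a =>
    (le_sup_left : A.map J.φ ≤ S2 J A) ⟨a, a.2, rfl⟩

/-- the inclusion of `k[s]` in `A[s]` -/
def i2 (J : Join k K (RatFunc k) L) (A : Subalgebra k K) : Lin.AA k →ₐ[k] S2 J A :=
  (J.ψ.comp (Lin.AA k).val).codRestrict _ fun a =>
    (le_sup_right : (Lin.AA k).map J.ψ ≤ S2 J A) ⟨a, a.2, rfl⟩

/-- `S` is a good algebra with `S[1/s] = A[s, 1/s]`, `s ∈ S ⊆ A[s]` -/
structure IsCone (J : Join k K (RatFunc k) L) (A : Subalgebra k K) (S : Subalgebra k L) :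
    Prop where
  good₁ : IsGood A
  good : IsGood S
  mem : ss J ∈ S
  le : S ≤ S2 J A
  den : ∀ f ∈ S2 J A, ∃ n : ℕ, ss J ^ n * f ∈ S

variable {J : Join k K (RatFunc k) L} {A : Subalgebra k K} {S : Subalgebra k L}

/-- the element `s` of `S` -/
def IsCone.s (h : IsCone J A S) : S := ⟨ss J, h.mem⟩

/-- the inclusion of `S` in `A[s]` -/
def IsCone.incl (h : IsCone J A S) : S →ₐ[k] S2 J A := Subalgebra.inclusion h.le

/-- the cone over `V(p)` -/
def IsCone.sh (h : IsCone J A S) (p : Ideal A) : Ideal S := (p.map (i1 J A)).comap h.incl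

/-- the point `1` of the line -/
def p1 (k : Type u) [Field k] : MaximalSpectrum (Lin.AA k) := ⟨Lin.PP 1, Lin.PP_max 1⟩

/-- the point `z` of the cone is the point `s = 1` over `x` -/
def IsCone.Lies (h : IsCone J A S) (x : MaximalSpectrum A) (z : MaximalSpectrum S) : Prop :=
  ∃ z₂ : MaximalSpectrum (S2 J A), Over (i1 J A) (i2 J A) z₂ x (p1 k) ∧
    z.asIdeal = z₂.asIdeal.comap h.incl

/-- the homomorphism `a ↦ φ(a)`, `X ↦ t` -/
def th (J : Join k K (RatFunc k) L) (v : K) : K[X] →ₐ[k] L :=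
  Polynomial.eval₂AlgHom J.φ (tt J v) fun _ => Commute.all _ _

end

end Pool.Agent.MLD.Mon
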