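import Pool.Agent.Lib.MP_f23696_ag.M.Defs

/-!
Definitions for arbitrary (not necessarily affine) equivariant embeddings of `G = ∏ GL_(n_i)`
(MP_f23696_ag).
-/

namespace Pool.Agent.MLD.Mon

universe u v

variable {k : Type u} {K : Type v} [Field k] [Field K] [Algebra k K]

/-- `σ` maps the local ring of `A` at `p` onto the local ring of `A` at `q`
(`σ` moves the subvariety `V(p)` to `V(q)`). -/
def MapsLocal {A : Subalgebra k K} (σ : K ≃ₐ[k] K) (p q : Ideal A) : Prop :=
  ∀ f : K, (∃ a s : A, s ∉ p ∧ f = (a : K) / (s : K)) ↔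
    ∃ a s : A, s ∉ q ∧ σ f = (a : K) / (s : K)

end Pool.Agent.MLD.Mon
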