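import Pool.Agent.Lib.MP_f23696_ag.M2.Lcl
import Pool.Agent.Lib.MP_f23696_ag.M2.Cone
import Pool.Agent.Lib.MP_f23696_ag.T.Hv
import Pool.Agent.Lib.MP_f23696_ag.T.Pri

/-!
SHP: cones over prime divisors (MP_f23696_ag).
-/

set_option autoImplicit false

open scoped Classical Polynomial

namespace Pool.Agent.MLD.Mon

open Pool.Agent.MLD.Ten

noncomputable section

universe u v

section Cone

variable {k K L : Type u} [Field k] [Field K] [Field L] [Algebra k K] [Algebra k L]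
  {J : Join k K (RatFunc k) L} {A : Subalgebra k K} {S : Subalgebra k L}

namespace Shp

/-- the coordinate of the line as an element of its coordinate ring -/
def xx (k : Type u) [Field k] : Lin.AA k := Lin.ee k Polynomial.X

theorem xx_ne : xx k ≠ 0 := by
  intro h0
  unfold xx at h0
  rw [map_eq_zero_iff _ (Lin.ee k).injective] at h0
  exact Polynomial.X_ne_zero h0

theorem i2_xx (h : IsCone J A S) : i2 J A (xx k) = ⟨ss J, h.le h.mem⟩ := by
  apply Subtype.ext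
  show J.ψ ((xx k : Lin.AA k) : RatFunc k) = J.ψ RatFunc.X
  congr 1

theorem comap_eq (h : IsCone J A S) (Q : Ideal (S2 J A)) :
    Q.comap h.incl = Q.comap (Subalgebra.inclusion h.le) := rfl

theorem mem_s (h : IsCone J A S) (Q : Ideal (S2 J A)) :
    h.s ∈ Q.comap h.incl ↔ (⟨ss J, h.le h.mem⟩ : S2 J A) ∈ Q := Iff.rfl

variable [IsAlgClosed k]

theorem s_notMem (h : IsCone J A S) {p : Ideal A} (hp : p.IsPrime) :
    (⟨ss J, h.le h.mem⟩ : S2 J A) ∉ p.map (i1 J A) := by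
  intro hm
  rw [← i2_xx h] at hm
  have h1 : xx k ∈ (p.map (i1 J A)).comap (i2 J A) := hm
  rw [comap_map_other (isProd J A) p hp.ne_top] at h1
  exact xx_ne h1

end Shp

open Shp

section SHP

variable [IsAlgClosed k] [CharZero k]

theorem sh_height (h : IsCone J A S) {p : Ideal A} (hp : IsHeightOne p) :
    IsHeightOne (h.sh p) ∧ h.s ∉ h.sh p := by
  have h1 := map_height (isProd J A) h.good₁ (aa_good k) p hp
  have h2 := s_notMem h hp.1
  exact ⟨(lcl_height h.le h.mem h.den h1.1 h2).2 h1, fun h3 => h2 ((mem_s h _).1 h3)⟩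

theorem sh_inj (h : IsCone J A S) {p q : Ideal A} (hp : p.IsPrime) (hq : q.IsPrime)
    (e : h.sh p = h.sh q) : p = q := by
  have h1 := map_prime (isProd J A) p hp
  have h2 := map_prime (isProd J A) q hq
  have h3 := lcl_inj h.le h.mem h.den h1 h2 (s_notMem h hp) (s_notMem h hq) (le_of_eq e)
  have h4 := lcl_inj h.le h.mem h.den h2 h1 (s_notMem h hq) (s_notMem h hp) (le_of_eq e.symm)
  have h5 : p.map (i1 J A) = q.map (i1 J A) := le_antisymm h3 h4
  rw [← comap_map (isProd J A) p, h5, comap_map (isProd J A) q]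

theorem sh_le (h : IsCone J A S) {p : Ideal A} (hp : p.IsPrime) {x : MaximalSpectrum A}
    {z : MaximalSpectrum S} (hz : h.Lies x z) (hle : h.sh p ≤ z.asIdeal) : p ≤ x.asIdeal := by
  obtain ⟨z₂, hover, hzz⟩ := hz
  have h1 : (⟨ss J, h.le h.mem⟩ : S2 J A) ∉ z₂.asIdeal := by
    intro hm
    rw [← i2_xx h] at hm
    have h2 : xx k ∈ z₂.asIdeal.comap (i2 J A) := hm
    rw [hover.2] at h2
    have h3 : (Polynomial.X : k[X]).eval 1 = 0 := (Lin.mem_PP 1 Polynomial.X).1 h2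
    rw [Polynomial.eval_X] at h3
    exact one_ne_zero h3
  rw [hzz] at hle
  have h2 := lcl_inj h.le h.mem h.den (map_prime (isProd J A) p hp) z₂.isMaximal.isPrime
    (s_notMem h hp) h1 hle
  rw [← hover.1]
  exact Ideal.le_comap_of_map_le h2

theorem sh_tri (h : IsCone J A S) {Q : Ideal S} (hQ : IsHeightOne Q) (hs : h.s ∉ Q)
    {v : DVal k L} (hv : v.HasCenter S Q) :
    (∃ p, IsHeightOne p ∧ Q = h.sh p ∧ ∃ v₁ : DVal k K, v₁.HasCenter A p ∧
      ∀ a : K, a ≠ 0 → v.ord (J.φ a) = v₁.ord a) ∨ ∀ a : K, a ≠ 0 → v.ord (J.φ a) = 0 := by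
  obtain ⟨Q₂, hQ₂, hsQ₂, hcom⟩ := lcl_exists h.le h.mem h.den hQ.1 hs
  have hht : IsHeightOne Q₂ := by
    rw [← lcl_height h.le h.mem h.den hQ₂ hsQ₂, hcom]
    exact hQ
  have hv₂ : v.HasCenter (S2 J A) Q₂ := by
    rw [← lcl_center h.le h.mem h.den hQ₂ hsQ₂, hcom]
    exact hv
  rcases trichotomy (isProd J A) h.good₁ (aa_good k) Q₂ hht with ⟨P, hP, rfl⟩ | ⟨P, hP, rfl⟩ |
    ⟨h1, _⟩
  · left
    obtain ⟨v₁, hv₁, e₁, _⟩ := Hv.left_val (isProd J A) h.good₁ (aa_good k) (good2 h) P hP v hv₂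
    exact ⟨P, hP, hcom.symm, v₁, hv₁, e₁⟩
  · right
    obtain ⟨v₁, hv₁, _, e₂⟩ := Hv.left_val (isProd J A).swap (aa_good k) h.good₁ (good2 h) P hP v
      hv₂
    exact e₂
  · right
    refine Hv.triv J.φ h.good₁ v fun a ha => ?_
    have hmem : i1 J A a ∉ Q₂ := by
      intro hm
      have h2 : a ∈ Q₂.comap (i1 J A) := hm
      rw [h1] at h2
      exact ha h2
    have h3 := (Hv.ord_unit v hv₂ _ hmem).2
    rwa [(isProd J A).coe₁] at h3

theorem sh_val (h : IsCone J A S) {p : Ideal A} (hp : IsHeightOne p) {v : DVal k L}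
    (hv : v.HasCenter S (h.sh p)) : ∃ v₁ : DVal k K, v₁.HasCenter A p ∧
      ∀ a : K, a ≠ 0 → v.ord (J.φ a) = v₁.ord a := by
  have h1 := map_height (isProd J A) h.good₁ (aa_good k) p hp
  have hv₂ : v.HasCenter (S2 J A) (p.map (i1 J A)) :=
    (lcl_center h.le h.mem h.den h1.1 (s_notMem h hp.1) v).1 hv
  obtain ⟨v₁, hv₁, e₁, _⟩ := Hv.left_val (isProd J A) h.good₁ (aa_good k) (good2 h) p hp v hv₂
  exact ⟨v₁, hv₁, e₁⟩

end SHP

end Cone

end

end Pool.Agent.MLD.Mon
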