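import Pool.Agent.Lib.MP_f23696_ag.M2.Cone
import Pool.Agent.Lib.MP_f23696_ag.M2.Shp
import Pool.Agent.Lib.MP_f23696_ag.M.Inv
import Pool.Agent.Lib.MP_f23696_ag.Dvr
import Pool.Agent.Lib.MP_f23696_ag.Hart

/-!
Project MON2 (MP_f23696_ag), module DEL: the boundary on the cone.
-/

set_option autoImplicit false

open scoped Classical Polynomial

namespace Pool.Agent.MLD.Mon

open Pool.Agent.MLD.Ten

noncomputable section

universe u v

namespace Del

section General

variable {k : Type u} {K : Type v} [Field k] [Field K] [Algebra k K]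

/-- the valuation `v ∘ σ` -/
theorem pull (v : DVal k K) (σ : K ≃ₐ[k] K) : ∃ v' : DVal k K, ∀ a, v'.ord a = v.ord (σ a) := by
  have hne : ∀ a : K, a ≠ 0 → σ a ≠ 0 := fun a ha h => ha (by
    have := congrArg σ.symm h
    rwa [σ.symm_apply_apply, map_zero] at this)
  refine ⟨
    { ord := fun a => v.ord (σ a)
      ord_mul := fun a b ha hb => by rw [map_mul]; exact v.ord_mul _ _ (hne a ha) (hne b hb)
      ord_add := fun a b ha hb hab => by
        rw [map_add]
        exact v.ord_add _ _ (hne a ha) (hne b hb) (by rw [← map_add]; exact hne _ hab)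
      ord_algebraMap := fun c hc => by
        show v.ord (σ (algebraMap k K c)) = 0
        rw [AlgEquiv.commutes]
        exact v.ord_algebraMap c hc
      exists_ord_eq_one := by
        obtain ⟨a, ha, h1⟩ := v.exists_ord_eq_one
        refine ⟨σ.symm a, fun h => ha ?_, ?_⟩
        · have := congrArg σ h
          rwa [σ.apply_symm_apply, map_zero] at this
        · show v.ord (σ (σ.symm a)) = 1
          rw [σ.apply_symm_apply]
          exact h1 }, fun a => rfl⟩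

theorem pull_int {v v' : DVal k K} {σ : K ≃ₐ[k] K} (h : ∀ a, v'.ord a = v.ord (σ a)) (a : K) :
    v'.Integral a ↔ v.Integral (σ a) := by
  unfold DVal.Integral
  rw [h]
  constructor
  · intro h0 h1
    refine h0 fun h2 => h1 ?_
    rw [h2, map_zero]
  · intro h0 h1
    refine h0 fun h2 => h1 ?_
    have := congrArg σ.symm h2
    rwa [σ.symm_apply_apply, map_zero] at this

theorem pull_small {v v' : DVal k K} {σ : K ≃ₐ[k] K} (h : ∀ a, v'.ord a = v.ord (σ a)) (a : K) :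
    v'.Small a ↔ v.Small (σ a) := by
  unfold DVal.Small
  rw [h]
  constructor
  · intro h0 h1
    refine h0 fun h2 => h1 ?_
    rw [h2, map_zero]
  · intro h0 h1
    refine h0 fun h2 => h1 ?_
    have := congrArg σ.symm h2
    rwa [σ.symm_apply_apply, map_zero] at this

/-- the local ring at a prime divisor is the valuation ring -/
theorem local_iff {A : Subalgebra k K} (hA : IsGood A) {p : Ideal A} (hp : IsHeightOne p)
    {v : DVal k K} (hv : v.HasCenter A p) (f : K) :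
    (∃ a s : A, s ∉ p ∧ f = (a : K) / (s : K)) ↔ v.Integral f := by
  by_cases hf : f = 0
  · subst hf
    constructor
    · intro _ h
      exact absurd rfl h
    · intro _
      refine ⟨0, 1, fun h => hp.1.ne_top ((Ideal.eq_top_iff_one _).2 h), ?_⟩
      simp
  · have hN := Pool.Agent.MLD.Ten.Ind.noeth A hA.fg
    obtain ⟨w, hwc, hw⟩ := dvr A hN hA.frac hA.norm p hp
    have h1 := dvr_unique A hN hA.frac hA.norm p hp v w hv hwc f hf
    have h2 : v.Integral f ↔ 0 ≤ w.ord f := by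
      unfold DVal.Integral
      rw [h1]
      exact ⟨fun h => h hf, fun h _ => h⟩
    rw [h2, hw f hf]
    constructor
    · rintro ⟨a, s, hs, rfl⟩
      refine ⟨s, hs, ?_⟩
      have hs0 : (s : K) ≠ 0 := by
        intro h
        apply hs
        have : s = 0 := Subtype.ext h
        rw [this]
        exact p.zero_mem
      rw [mul_div_cancel₀ _ hs0]
      exact a.2
    · rintro ⟨s, hs, hsf⟩
      refine ⟨⟨_, hsf⟩, s, hs, ?_⟩
      have hs0 : (s : K) ≠ 0 := by
        intro h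
        apply hs
        have : s = 0 := Subtype.ext h
        rw [this]
        exact p.zero_mem
      show f = ((s : K) * f) / (s : K)
      rw [mul_div_cancel_left₀ _ hs0]

theorem mapsLocal {A : Subalgebra k K} (hA : IsGood A) {p q : Ideal A} (hp : IsHeightOne p)
    (hq : IsHeightOne q) {v₁ v₂ : DVal k K} (hv₁ : v₁.HasCenter A p) (hv₂ : v₂.HasCenter A q)
    (σ : K ≃ₐ[k] K) (h : ∀ a : K, a ≠ 0 → v₁.ord a = v₂.ord (σ a)) : MapsLocal σ p q := by
  intro f
  rw [local_iff hA hp hv₁, local_iff hA hq hv₂]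
  unfold DVal.Integral
  constructor
  · intro h0 h1
    have h2 : f ≠ 0 := fun h2 => h1 (by rw [h2, map_zero])
    rw [← h f h2]
    exact h0 h2
  · intro h0 h1
    rw [h f h1]
    refine h0 fun h2 => h1 ?_
    have := congrArg σ.symm h2
    rwa [σ.symm_apply_apply, map_zero] at this

end General

section Cone

variable {k K L : Type u} [Field k] [Field K] [Field L] [Algebra k K] [Algebra k L]
  {J : Join k K (RatFunc k) L} {A : Subalgebra k K} {S : Subalgebra k L}
  [IsAlgClosed k] [CharZero k]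

/-- the cone over a component of the boundary is invariant -/
theorem inv {N m : ℕ} {B : Blk N m} (C : GC k K B) {B' : Blk (N + 1) (m + 1)} (C' : GC k L B')
    (h : IsCone J A S) (hE : IsEmb C' S) (v : K)
    (hC' : ∀ τ, C'.Tra τ → ∃ (σ : K ≃ₐ[k] K) (c : k), C.Tra σ ∧ c ≠ 0 ∧
        (∀ a, τ (J.φ a) = J.φ (σ a)) ∧ τ (tt J v) = algebraMap k L c * tt J v)
    (δ : Ideal A →₀ ℝ)
    (hδ : ∀ σ, C.Tra σ → ∀ p q : Ideal A, IsHeightOne p → IsHeightOne q → MapsLocal σ p q →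
      δ p = δ q) {p : Ideal A} (hp : IsHeightOne p) (hne : δ p ≠ 0) : InvI C' (h.sh p) := by
  have hN := Pool.Agent.MLD.Ten.Ind.noeth S hE.good.fg
  have hs0 : h.s ≠ 0 := fun e => ss_ne J (congrArg Subtype.val e)
  have hfin := finite_heightOne S hN h.s hs0
  have hh := (sh_height h hp).1
  refine conn hE hh (hfin.toFinset ∪ δ.support.image h.sh) fun τ hτ => ?_
  obtain ⟨Q, h1, h2, h3⟩ := exists_mapsTo hE hτ (h.sh p)
  have hQ := h3 hh
  refine ⟨Q, ?_, h1⟩
  rw [Finset.mem_union]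
  by_cases hsQ : h.s ∈ Q
  · left
    rw [Set.Finite.mem_toFinset]
    exact ⟨hQ, hsQ⟩
  right
  obtain ⟨w, hw, _⟩ := dvr S hN hE.good.frac hE.good.norm Q hQ
  obtain ⟨w', hw'⟩ := pull w τ
  have hc : w'.HasCenter S (h.sh p) := by
    refine ⟨fun a => ?_, fun a => ?_⟩
    · rw [pull_int hw']
      exact hw.1 (Inv.aut hE hτ a)
    · rw [pull_small hw', h1 a (Inv.aut hE hτ a) rfl]
      exact hw.2 (Inv.aut hE hτ a)
  obtain ⟨v₁, hv₁, he₁⟩ := sh_val h hp hc
  obtain ⟨σ, c, hσ, hc0, hσφ, _⟩ := hC' τ hτ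
  have hσne : ∀ a : K, a ≠ 0 → σ a ≠ 0 := fun a ha h => ha (by
    have := congrArg σ.symm h
    rwa [σ.symm_apply_apply, map_zero] at this)
  rcases sh_tri h hQ hsQ hw with ⟨q, hq, rfl, v₂, hv₂, he₂⟩ | htriv
  · rw [Finset.mem_image]
    refine ⟨q, ?_, rfl⟩
    rw [Finsupp.mem_support_iff, ← hδ σ hσ p q hp hq (mapsLocal h.good₁ hp hq hv₁ hv₂ σ ?_)]
    · exact hne
    · intro a ha
      rw [← he₁ a ha, hw', hσφ, he₂ _ (hσne a ha)]
  · exfalso
    obtain ⟨a, ha, ha0⟩ := Submodule.exists_mem_ne_zero_of_ne_bot hp.2.1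
    have ha0' : (a : K) ≠ 0 := fun e => ha0 (Subtype.ext e)
    have h5 : 0 < v₁.ord (a : K) := (hv₁.2 a).1 ha ha0'
    rw [← he₁ _ ha0', hw', hσφ, htriv _ (hσne _ ha0')] at h5
    exact lt_irrefl _ h5

end Cone

end Del

section DEL

variable {k K L : Type u} [Field k] [Field K] [Field L] [Algebra k K] [Algebra k L]
  {J : Join k K (RatFunc k) L} {A : Subalgebra k K} {S : Subalgebra k L}
  [IsAlgClosed k] [CharZero k]

theorem del {N m : ℕ} {B : Blk N m} (C : GC k K B) {B' : Blk (N + 1) (m + 1)} (C' : GC k L B')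
    (h : IsCone J A S) (hE : IsEmb C' S) (v : K)
    (hC' : ∀ τ, C'.Tra τ → ∃ (σ : K ≃ₐ[k] K) (c : k), C.Tra σ ∧ c ≠ 0 ∧
        (∀ a, τ (J.φ a) = J.φ (σ a)) ∧ τ (tt J v) = algebraMap k L c * tt J v)
    (δ : Ideal A →₀ ℝ) (hδ0 : ∀ p, 0 ≤ δ p)
    (hδ : ∀ σ, C.Tra σ → ∀ p q : Ideal A, IsHeightOne p → IsHeightOne q → MapsLocal σ p q →
      δ p = δ q) :
    ∃ δ' : Ideal S →₀ ℝ, (∀ Q, 0 ≤ δ' Q) ∧ (∀ p, IsHeightOne p → δ' (h.sh p) = δ p) ∧
      (∀ Q, (¬ ∃ p, IsHeightOne p ∧ Q = h.sh p) → δ' Q = 0) ∧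
      ∀ τ, C'.Tra τ → ∀ P Q : Ideal S, MapsTo τ P Q → δ' P = δ' Q := by
  obtain ⟨F, hF⟩ : ∃ F : Ideal S → ℝ, ∀ Q, F Q =
      if hQ : ∃ p, IsHeightOne p ∧ Q = h.sh p then δ hQ.choose else 0 := ⟨_, fun _ => rfl⟩
  have hF1 : ∀ p, IsHeightOne p → F (h.sh p) = δ p := by
    intro p hp
    have hQ : ∃ q, IsHeightOne q ∧ h.sh p = h.sh q := ⟨p, hp, rfl⟩
    rw [hF, dif_pos hQ]
    congr 1
    exact (sh_inj h hp.1 hQ.choose_spec.1.1 hQ.choose_spec.2).symm
  have hF2 : ∀ Q, (¬ ∃ p, IsHeightOne p ∧ Q = h.sh p) → F Q = 0 := by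
    intro Q hQ
    rw [hF, dif_neg hQ]
  obtain ⟨δ', hδ'⟩ : ∃ δ' : Ideal S →₀ ℝ, ∀ Q, δ' Q = F Q := by
    refine ⟨Finsupp.onFinset (δ.support.image h.sh) F fun Q hQ => ?_, fun Q => rfl⟩
    by_contra hn
    apply hQ
    by_cases hex : ∃ p, IsHeightOne p ∧ Q = h.sh p
    · obtain ⟨p, hp, rfl⟩ := hex
      rw [hF1 p hp]
      by_contra hne
      exact hn (Finset.mem_image.2 ⟨p, Finsupp.mem_support_iff.2 hne, rfl⟩)
    · exact hF2 Q hex
  have hinv : ∀ Q, δ' Q ≠ 0 → InvI C' Q := by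
    intro Q hQ
    rw [hδ'] at hQ
    by_cases hex : ∃ p, IsHeightOne p ∧ Q = h.sh p
    · obtain ⟨p, hp, rfl⟩ := hex
      rw [hF1 p hp] at hQ
      exact Del.inv C C' h hE v hC' δ hδ hp hQ
    · exact absurd (hF2 Q hex) hQ
  refine ⟨δ', fun Q => ?_, fun p hp => ?_, fun Q hQ => ?_, fun τ hτ P Q hPQ => ?_⟩
  · rw [hδ', hF]
    split_ifs
    · exact hδ0 _
    · exact le_rfl
  · rw [hδ', hF1 p hp]
  · rw [hδ', hF2 Q hQ]
  · by_cases hP : δ' P = 0
    · by_cases hQ : δ' Q = 0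
      · rw [hP, hQ]
      · have h1 := hinv Q hQ τ hτ
        -- `P = Q` since `τ` is injective on ideals
        have h2 : P = Q := by
          ext a
          have h3 := hPQ a (Inv.aut hE hτ a) rfl
          have h4 := h1 a (Inv.aut hE hτ a) rfl
          rw [h3, h4]
        rw [h2]
    · have h1 := hinv P hP τ hτ
      rw [Inv.mapsTo_unique hE hτ hPQ h1]

end DEL

end

end Pool.Agent.MLD.Mon
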