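import Pool.Agent.Lib.MP_f23696_ag.M2.Ctx
import Pool.Agent.Lib.MP_f23696_ag.M.Fin

/-!
# MON2 (MP_f23696_ag), module FRA: the frame given by the generic matrix
-/

set_option autoImplicit false

open scoped Classical Polynomial

namespace Pool.Agent.MLD.Mon

open Pool.Agent.MLD.Ten

noncomputable section

universe u v

section FRA

variable {N m : ℕ} {k : Type u} {K : Type v} [Field k] [Field K] [Algebra k K]

theorem exists_frame (b : Fin N → ℕ) (hb : Monotone b)
    (g : Matrix (Fin N) (Fin N) K) (hg : ∀ p q, b p ≠ b q → g p q = 0)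
    (e : Fin (m + 1) ≃ {s : Fin N × Fin N // b s.1 = b s.2})
    (hind : AlgebraicIndependent k fun i => g (e i).1.1 (e i).1.2)
    (hgen : IntermediateField.adjoin k (Set.range fun i => g (e i).1.1 (e i).1.2) = ⊤)
    (D : Fin (m + 1) → Derivation k K K)
    (hD : ∀ i j, D i (g (e j).1.1 (e j).1.2) = if i = j then 1 else 0) :
    ∃ C : GC k K (⟨b, hb, e⟩ : Blk N m), C.D = D ∧ (∀ i, C.y i = g (e i).1.1 (e i).1.2) ∧
      ∀ σ, C.Tra σ ↔ IsTranslation b g σ := by
  let B : Blk N m := ⟨b, hb, e⟩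
  obtain ⟨T, hT⟩ := Fin0.exists_T B hind
  let C : GC k K B := ⟨fun i => g (e i).1.1 (e i).1.2, hind, hgen, D, hD, T, hT⟩
  have hix : ∀ p q (h : b p = b q), C.y (B.ix p q h) = g p q := by
    intro p q h
    show g (e (e.symm ⟨(p, q), h⟩)).1.1 (e (e.symm ⟨(p, q), h⟩)).1.2 = g p q
    rw [e.apply_symm_apply]
  have hCg : C.g = g := by
    ext p q
    show B.mat C.y p q = g p q
    simp only [Blk.mat]
    split_ifs with h
    · exact hix p q h
    · exact (hg p q h).symm
  have hmat : ∀ (σ : K ≃ₐ[k] K) p q, B.mat (fun i => σ (C.y i)) p q = σ (g p q) := by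
    intro σ p q
    simp only [Blk.mat]
    split_ifs with h
    · rw [hix p q h]
    · rw [hg p q h, map_zero]
  refine ⟨C, rfl, fun i => rfl, fun σ => ⟨?_, ?_⟩⟩
  · rintro ⟨a, c, ha, hc, h⟩
    refine ⟨a, c, ha, hc, fun p q => ?_⟩
    rw [hCg] at h
    rw [← h, hmat]
  · rintro ⟨a, c, ha, hc, h⟩
    refine ⟨a, c, ha, hc, ?_⟩
    rw [hCg]
    ext p q
    rw [hmat, h]

end FRA

end

end Pool.Agent.MLD.Mon
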