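import Pool.Agent.Lib.MP_f23696_ag.M2.Ctx
import Pool.Agent.Lib.MP_f23696_ag.M.Tra
import Pool.Agent.Lib.MP_f23696_ag.T.JDer

/-!
Project MON2 (MP_f23696_ag), module GRP: the group `G × GL_1`.
-/

set_option autoImplicit false

open scoped Classical Polynomial

namespace Pool.Agent.MLD.Mon

open Pool.Agent.MLD.Ten

noncomputable section

universe u v

namespace Grp

/-! ### block diagonal matrices with one more entry -/

section bd

variable {R : Type v} [CommRing R] {n : ℕ}

/-- block diagonal matrix with blocks `A` and `x` -/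
def bd (A : Matrix (Fin n) (Fin n) R) (x : R) : Matrix (Fin (n + 1)) (Fin (n + 1)) R := fun p q =>
  Fin.lastCases (motive := fun _ => R) (Fin.lastCases (motive := fun _ => R) x (fun _ => 0) q)
    (fun p' => Fin.lastCases (motive := fun _ => R) 0 (fun q' => A p' q') q) p

variable (A A' : Matrix (Fin n) (Fin n) R) (x x' : R)

theorem bd_cc (p q : Fin n) : bd A x p.castSucc q.castSucc = A p q := by simp [bd]
theorem bd_cl (p : Fin n) : bd A x p.castSucc (Fin.last n) = 0 := by simp [bd]
theorem bd_lc (q : Fin n) : bd A x (Fin.last n) q.castSucc = 0 := by simp [bd]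
theorem bd_ll : bd A x (Fin.last n) (Fin.last n) = x := by simp [bd]

theorem bd_ext {M : Matrix (Fin (n + 1)) (Fin (n + 1)) R}
    (h1 : ∀ p q : Fin n, M p.castSucc q.castSucc = A p q)
    (h2 : ∀ p : Fin n, M p.castSucc (Fin.last n) = 0)
    (h3 : ∀ q : Fin n, M (Fin.last n) q.castSucc = 0)
    (h4 : M (Fin.last n) (Fin.last n) = x) : M = bd A x := by
  ext p q
  refine Fin.lastCases ?_ (fun p => ?_) p
  · refine Fin.lastCases ?_ (fun q => ?_) q
    · rw [bd_ll, h4]
    · rw [bd_lc, h3]
  · refine Fin.lastCases ?_ (fun q => ?_) q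
    · rw [bd_cl, h2]
    · rw [bd_cc, h1]

theorem bd_mul : bd A x * bd A' x' = bd (A * A') (x * x') := by
  refine bd_ext _ _ (fun p q => ?_) (fun p => ?_) (fun q => ?_) ?_
  · rw [Matrix.mul_apply, Fin.sum_univ_castSucc, bd_cl, zero_mul, add_zero, Matrix.mul_apply]
    exact Finset.sum_congr rfl fun r _ => by rw [bd_cc, bd_cc]
  · rw [Matrix.mul_apply, Fin.sum_univ_castSucc, bd_cl, zero_mul, add_zero]
    exact Finset.sum_eq_zero fun r _ => by rw [bd_cl, mul_zero]
  · rw [Matrix.mul_apply, Fin.sum_univ_castSucc, bd_lc, mul_zero, add_zero]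
    exact Finset.sum_eq_zero fun r _ => by rw [bd_lc, zero_mul]
  · rw [Matrix.mul_apply, Fin.sum_univ_castSucc, bd_ll, bd_ll]
    rw [Finset.sum_eq_zero fun r _ => by rw [bd_lc, zero_mul], zero_add]

theorem bd_inj {A A' : Matrix (Fin n) (Fin n) R} {x x' : R} (h : bd A x = bd A' x') :
    A = A' ∧ x = x' := by
  constructor
  · ext p q
    rw [← bd_cc A x, h, bd_cc]
  · rw [← bd_ll A x, h, bd_ll]

theorem bd_map {S : Type*} [CommRing S] (f : R →+* S) : (bd A x).map f = bd (A.map f) (f x) := by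
  refine bd_ext _ _ (fun p q => ?_) (fun p => ?_) (fun q => ?_) ?_
  · rw [Matrix.map_apply, bd_cc, Matrix.map_apply]
  · rw [Matrix.map_apply, bd_cl, map_zero]
  · rw [Matrix.map_apply, bd_lc, map_zero]
  · rw [Matrix.map_apply, bd_ll]

theorem bd_det : (bd A x).det = A.det * x := by
  rw [Matrix.det_succ_row _ (Fin.last n), Finset.sum_eq_single (Fin.last n)]
  · rw [bd_ll, ← two_mul]
    have h1 : (bd A x).submatrix (Fin.last n).succAbove (Fin.last n).succAbove = A := by
      ext p q
      rw [Matrix.submatrix_apply, Fin.succAbove_last, bd_cc]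
    rw [h1, pow_mul, neg_one_sq, one_pow, one_mul, mul_comm]
  · intro q _ hq
    obtain ⟨q', rfl⟩ := Fin.exists_castSucc_eq.2 hq
    rw [bd_lc, mul_zero, zero_mul]
  · intro h
    exact absurd (Finset.mem_univ _) h

end bd

/-! ### the block structure of `G × GL_1` -/

variable {N m : ℕ} (B : Blk N m)

/-- the block function of `G × GL_1` -/
def bb : Fin (N + 1) → ℕ := Fin.snoc (α := fun _ => ℕ) B.b (Finset.univ.sup B.b + 1)

theorem bb_c (p : Fin N) : bb B p.castSucc = B.b p := by simp [bb]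

theorem bb_l : bb B (Fin.last N) = Finset.univ.sup B.b + 1 := by simp [bb]

theorem bb_lt (p : Fin N) : bb B p.castSucc < bb B (Fin.last N) := by
  rw [bb_c, bb_l, Nat.lt_succ_iff]
  exact Finset.le_sup (f := B.b) (Finset.mem_univ p)

theorem bb_mono : Monotone (bb B) := by
  intro p q hpq
  induction q using Fin.lastCases with
  | last =>
    induction p using Fin.lastCases with
    | last => exact le_rfl
    | cast p => exact (bb_lt B p).le
  | cast q =>
    induction p using Fin.lastCases with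
    | last => exact absurd hpq (not_le.2 (Fin.castSucc_lt_last q))
    | cast p =>
      rw [bb_c, bb_c]
      exact B.mono (Fin.castSucc_le_castSucc_iff.1 hpq)

/-- the numbering of the entries -/
def ee : Fin (m + 1 + 1) → {s : Fin (N + 1) × Fin (N + 1) // bb B s.1 = bb B s.2} := fun i =>
  Fin.lastCases (motive := fun _ => {s : Fin (N + 1) × Fin (N + 1) // bb B s.1 = bb B s.2})
    ⟨(Fin.last N, Fin.last N), rfl⟩
    (fun i => ⟨((B.rw i).castSucc, (B.cl i).castSucc), by
      show bb B (B.rw i).castSucc = bb B (B.cl i).castSucc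
      rw [bb_c, bb_c]
      exact B.rw_cl i⟩) i

theorem ee_l : ee B (Fin.last (m + 1)) = ⟨(Fin.last N, Fin.last N), rfl⟩ := by simp [ee]

theorem ee_c (i : Fin (m + 1)) : (ee B i.castSucc).1 = ((B.rw i).castSucc, (B.cl i).castSucc) := by
  simp [ee]

theorem ee_bij : Function.Bijective (ee B) := by
  constructor
  · intro i j hij
    have h0 := congrArg Subtype.val hij
    induction i using Fin.lastCases with
    | last =>
      induction j using Fin.lastCases with
      | last => rfl
      | cast j =>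
        rw [ee_l, ee_c] at h0
        exact absurd (congrArg Prod.fst h0).symm (Fin.castSucc_lt_last _).ne
    | cast i =>
      induction j using Fin.lastCases with
      | last =>
        rw [ee_l, ee_c] at h0
        exact absurd (congrArg Prod.fst h0) (Fin.castSucc_lt_last _).ne
      | cast j =>
        rw [ee_c, ee_c] at h0
        have h1 := Fin.castSucc_injective _ (congrArg Prod.fst h0)
        have h2 := Fin.castSucc_injective _ (congrArg Prod.snd h0)
        have h3 : B.e i = B.e j := Subtype.ext (Prod.ext h1 h2)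
        rw [B.e.injective h3]
  · rintro ⟨⟨p, q⟩, h⟩
    induction p using Fin.lastCases with
    | last =>
      induction q using Fin.lastCases with
      | last => exact ⟨Fin.last _, ee_l B⟩
      | cast q => exact absurd h (bb_lt B q).ne'
    | cast p =>
      induction q using Fin.lastCases with
      | last => exact absurd h (bb_lt B p).ne
      | cast q =>
        have h' : B.b p = B.b q := by
          rw [← bb_c B p, ← bb_c B q]
          exact h
        refine ⟨(B.ix p q h').castSucc, Subtype.ext ?_⟩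
        rw [ee_c, B.rw_ix, B.cl_ix]

/-- the block structure of `G × GL_1` -/
def bl : Blk (N + 1) (m + 1) where
  b := bb B
  mono := bb_mono B
  e := Equiv.ofBijective (ee B) (ee_bij B)

theorem bl_b : (bl B).b = bb B := rfl

theorem ix_l (h : (bl B).b (Fin.last N) = (bl B).b (Fin.last N)) :
    (bl B).ix (Fin.last N) (Fin.last N) h = Fin.last (m + 1) := by
  refine (Equiv.symm_apply_eq _).2 ?_
  exact (ee_l B).symm

theorem ix_c (p q : Fin N) (h : (bl B).b p.castSucc = (bl B).b q.castSucc) (h' : B.b p = B.b q) :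
    (bl B).ix p.castSucc q.castSucc h = (B.ix p q h').castSucc := by
  refine (Equiv.symm_apply_eq _).2 (Subtype.ext ?_)
  have h1 : ((bl B).e (B.ix p q h').castSucc).1 = (ee B (B.ix p q h').castSucc).1 := rfl
  rw [h1, ee_c, B.rw_ix, B.cl_ix]

section mats

variable {R : Type v} [CommRing R] (y : Fin (m + 1) → R) (t : R)

theorem mat_eq : (bl B).mat (Fin.snoc (α := fun _ => R) y t) = bd (B.mat y) t := by
  refine bd_ext _ _ (fun p q => ?_) (fun p => ?_) (fun q => ?_) ?_
  · simp only [Blk.mat]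
    by_cases h : B.b p = B.b q
    · have h' : (bl B).b p.castSucc = (bl B).b q.castSucc := by rw [bl_b, bb_c, bb_c, h]
      rw [dif_pos h, dif_pos h', ix_c B p q h' h]
      simp
    · have h' : ¬ (bl B).b p.castSucc = (bl B).b q.castSucc := by rwa [bl_b, bb_c, bb_c]
      rw [dif_neg h, dif_neg h']
  · simp only [Blk.mat]
    rw [dif_neg]
    exact (bb_lt B p).ne
  · simp only [Blk.mat]
    rw [dif_neg]
    exact (bb_lt B q).ne'
  · rw [Blk.mat, dif_pos rfl, ix_l]
    simp

theorem low_eq : (bl B).low (Fin.snoc (α := fun _ => R) y t) = bd (B.low y) 1 := by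
  refine bd_ext _ _ (fun p q => ?_) (fun p => ?_) (fun q => ?_) ?_
  · simp only [Blk.low, mat_eq, Fin.castSucc_inj, Fin.castSucc_lt_castSucc_iff, bd_cc]
  · rw [Blk.low, if_neg (Fin.castSucc_lt_last p).ne, if_neg (Fin.castSucc_lt_last p).asymm]
  · rw [Blk.low, if_neg (Fin.castSucc_lt_last q).ne', if_pos (Fin.castSucc_lt_last q), mat_eq,
      bd_lc]
  · rw [Blk.low, if_pos rfl]

theorem upp_eq : (bl B).upp (Fin.snoc (α := fun _ => R) y t) = bd (B.upp y) 1 := by
  refine bd_ext _ _ (fun p q => ?_) (fun p => ?_) (fun q => ?_) ?_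
  · simp only [Blk.upp, mat_eq, Fin.castSucc_inj, Fin.castSucc_lt_castSucc_iff, bd_cc]
  · rw [Blk.upp, if_neg (Fin.castSucc_lt_last p).ne, if_pos (Fin.castSucc_lt_last p), mat_eq,
      bd_cl]
  · rw [Blk.upp, if_neg (Fin.castSucc_lt_last q).ne', if_neg (Fin.castSucc_lt_last q).asymm]
  · rw [Blk.upp, if_pos rfl]

theorem dia_eq : Matrix.diagonal ((bl B).dia (Fin.snoc (α := fun _ => R) y t)) =
    bd (Matrix.diagonal (B.dia y)) t := by
  refine bd_ext _ _ (fun p q => ?_) (fun p => ?_) (fun q => ?_) ?_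
  · by_cases h : p = q
    · subst h
      rw [Matrix.diagonal_apply_eq, Matrix.diagonal_apply_eq]
      show Fin.snoc (α := fun _ => R) y t ((bl B).ix p.castSucc p.castSucc rfl) = _
      rw [ix_c B p p rfl rfl]
      simp [Blk.dia, Blk.dx]
    · rw [Matrix.diagonal_apply_ne _ h, Matrix.diagonal_apply_ne]
      exact fun h' => h (Fin.castSucc_injective _ h')
  · rw [Matrix.diagonal_apply_ne _ (Fin.castSucc_lt_last p).ne]
  · rw [Matrix.diagonal_apply_ne _ (Fin.castSucc_lt_last q).ne']
  · rw [Matrix.diagonal_apply_eq]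
    show Fin.snoc (α := fun _ => R) y t ((bl B).ix (Fin.last N) (Fin.last N) rfl) = _
    rw [ix_l]
    simp

theorem ldu_eq : (bl B).ldu (Fin.snoc (α := fun _ => R) y t) = bd (B.ldu y) t := by
  rw [Blk.ldu, low_eq, dia_eq, upp_eq, bd_mul, bd_mul, one_mul, mul_one]
  rfl

end mats

/-- elements of `G × GL_1` -/
theorem isG_bd {k : Type u} [Field k] {a : Matrix (Fin (N + 1)) (Fin (N + 1)) k}
    (h : (bl B).IsG a) : ∃ (a₁ : Matrix (Fin N) (Fin N) k) (x : k), B.IsG a₁ ∧ x ≠ 0 ∧
      a = bd a₁ x := by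
  have h1 : a = bd (fun p q => a p.castSucc q.castSucc) (a (Fin.last N) (Fin.last N)) :=
    bd_ext _ _ (fun p q => rfl) (fun p => h.1 _ _ (bb_lt B p).ne)
      (fun q => h.1 _ _ (bb_lt B q).ne') rfl
  have h2 := h.2
  rw [h1, bd_det] at h2
  refine ⟨_, _, ⟨fun p q hpq => h.1 _ _ ?_, left_ne_zero_of_mul h2⟩, right_ne_zero_of_mul h2, h1⟩
  rwa [bl_b, bb_c, bb_c]

end Grp

section Cone

variable {k K L : Type u} [Field k] [Field K] [Field L] [Algebra k K] [Algebra k L]
  {J : Join k K (RatFunc k) L} {A : Subalgebra k K} {S : Subalgebra k L}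

section GRP

namespace Grp

/-- the field `L` is generated by `φ(y)` and `t` -/
theorem gen {n : ℕ} (J : Join k K (RatFunc k) L) (v : K) (hv : v ≠ 0) (y : Fin n → K)
    (hy : IntermediateField.adjoin k (Set.range y) = ⊤) :
    IntermediateField.adjoin k
      (Set.range (Fin.snoc (α := fun _ => L) (fun i => J.φ (y i)) (tt J v))) = ⊤ := by
  set F := IntermediateField.adjoin k
    (Set.range (Fin.snoc (α := fun _ => L) (fun i => J.φ (y i)) (tt J v))) with hF
  have hφ : ∀ a : K, J.φ a ∈ F := by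
    intro a
    have ha : a ∈ IntermediateField.adjoin k (Set.range y) := by rw [hy]; trivial
    have h1 : (IntermediateField.adjoin k (Set.range y)).map J.φ ≤ F := by
      rw [IntermediateField.adjoin_map, IntermediateField.adjoin_le_iff]
      rintro _ ⟨_, ⟨i, rfl⟩, rfl⟩
      refine IntermediateField.subset_adjoin k _ ⟨i.castSucc, ?_⟩
      simp
    exact h1 ⟨a, ha, rfl⟩
  have ht : tt J v ∈ F := IntermediateField.subset_adjoin k _ ⟨Fin.last n, by simp⟩
  have hs : ss J ∈ F := by
    have h1 : ss J = tt J v * J.φ v := by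
      rw [tt, div_mul_cancel₀]
      exact (map_ne_zero J.φ).2 hv
    rw [h1]
    exact mul_mem ht (hφ v)
  have hpoly : ∀ p : k[X], J.ψ (algebraMap k[X] (RatFunc k) p) ∈ F := by
    intro p
    have h1 : J.ψ (algebraMap k[X] (RatFunc k) p) = Polynomial.aeval (ss J) p := by
      have h2 : algebraMap k[X] (RatFunc k) p = Polynomial.aeval (RatFunc.X : RatFunc k) p :=
        (Lin.aeval_im p).symm
      rw [h2, ← Polynomial.aeval_algHom_apply]
      rfl
    rw [h1]
    exact Polynomial.aeval_mem_adjoin_singleton k (ss J) |>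
      (Algebra.adjoin_le (S := F.toSubalgebra) (by simpa using hs) ·)
  have hψ : ∀ r : RatFunc k, J.ψ r ∈ F := by
    intro r
    have h2 : r = algebraMap k[X] (RatFunc k) r.num / algebraMap k[X] (RatFunc k) r.denom :=
      (RatFunc.num_div_denom r).symm
    rw [h2, map_div₀]
    exact div_mem (hpoly _) (hpoly _)
  have hprod : ∀ x, Algebra.TensorProduct.productMap J.φ J.ψ x ∈ F := by
    intro x
    induction x using TensorProduct.induction_on with
    | zero => rw [map_zero]; exact zero_mem _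
    | tmul a b =>
      rw [Algebra.TensorProduct.productMap_apply_tmul]
      exact mul_mem (hφ a) (hψ b)
    | add a b ha hb => rw [map_add]; exact add_mem ha hb
  rw [eq_top_iff]
  intro f _
  obtain ⟨a, b, _, rfl⟩ := J.frac f
  exact div_mem (hprod a) (hprod b)

theorem isTB {n : ℕ} {y : Fin n → K} (hi : AlgebraicIndependent k y)
    (hy : IntermediateField.adjoin k (Set.range y) = ⊤) : IsTranscendenceBasis k y := by
  rw [isTranscendenceBasis_iff_algebraicIndependent_isAlgebraic]
  refine ⟨hi, ⟨fun x => ?_⟩⟩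
  have hx : x ∈ IntermediateField.adjoin k (Set.range y) := by rw [hy]; trivial
  obtain ⟨r, hr, s, hs, rfl⟩ := IntermediateField.mem_adjoin_iff_div.mp hx
  have h1 : IsAlgebraic (Algebra.adjoin k (Set.range y)) r :=
    isAlgebraic_algebraMap (⟨r, hr⟩ : Algebra.adjoin k (Set.range y))
  have h2 : IsAlgebraic (Algebra.adjoin k (Set.range y)) s :=
    isAlgebraic_algebraMap (⟨s, hs⟩ : Algebra.adjoin k (Set.range y))
  rw [div_eq_mul_inv]
  exact h1.mul h2.inv

theorem ind {m : ℕ} (J : Join k K (RatFunc k) L) (v : K) (hv : v ≠ 0) (y : Fin (m + 1) → K)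
    (hi : AlgebraicIndependent k y) (hy : IntermediateField.adjoin k (Set.range y) = ⊤) :
    AlgebraicIndependent k (Fin.snoc (α := fun _ => L) (fun i => J.φ (y i)) (tt J v)) := by
  have h1 := joint_basis J y (isTB hi hy) (fun _ : Fin (0 + 1) => (RatFunc.X : RatFunc k))
    Lin.basis_X
  exact Lin.indep_of_gen (m := m + 1) (y := Fin.append (fun i => J.φ (y i)) (fun _ => J.ψ RatFunc.X))
    h1.1 (gen J v hv y hy)

/-- the frame of `G × GL_1` -/
def frame {N m : ℕ} {B : Blk N m} (C : GC k K B) (J : Join k K (RatFunc k) L) (v : K)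
    (hv : v ≠ 0) (D' : Fin (m + 1 + 1) → Derivation k L L)
    (hD' : ∀ i j, D' i (Fin.snoc (α := fun _ => L) (fun i => J.φ (C.y i)) (tt J v) j) =
      if i = j then 1 else 0) : GC k L (bl B) where
  y := Fin.snoc (α := fun _ => L) (fun i => J.φ (C.y i)) (tt J v)
  ind := ind J v hv C.y C.ind C.gen
  gen := gen J v hv C.y C.gen
  D := D'
  dual := hD'
  T := Fin.snoc (α := fun _ => L) (fun i => J.φ (C.T i)) (tt J v)
  hT := by
    rw [ldu_eq, mat_eq]
    have h1 := Lin.ldu_map (B := B) (J.φ : K →+* L) C.T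
    have h2 := Lin.mat_map (B := B) (J.φ : K →+* L) C.y
    have h3 : B.ldu (fun i => J.φ (C.T i)) = (B.ldu C.T).map (J.φ : K →+* L) := h1
    have h4 : B.mat (fun i => J.φ (C.y i)) = (B.mat C.y).map (J.φ : K →+* L) := h2
    rw [h3, h4, C.hT]

end Grp

theorem grp {N m : ℕ} {B : Blk N m} (C : GC k K B) (J : Join k K (RatFunc k) L) (v : K)
    (hv : v ≠ 0) (D' : Fin (m + 1 + 1) → Derivation k L L)
    (hD' : ∀ i j, D' i (Fin.snoc (α := fun _ => L) (fun i => J.φ (C.y i)) (tt J v) j) =
      if i = j then 1 else 0) :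
    ∃ (B' : Blk (N + 1) (m + 1)) (C' : GC k L B'), C'.D = D' ∧
      ∀ τ, C'.Tra τ → ∃ (σ : K ≃ₐ[k] K) (c : k), C.Tra σ ∧ c ≠ 0 ∧
        (∀ a, τ (J.φ a) = J.φ (σ a)) ∧ τ (tt J v) = algebraMap k L c * tt J v := by
  refine ⟨Grp.bl B, Grp.frame C J v hv D' hD', rfl, ?_⟩
  rintro τ ⟨a', c', ha', hc', hac⟩
  obtain ⟨a, x, ha, hx, rfl⟩ := Grp.isG_bd B ha'
  obtain ⟨c, z, hc, hz, rfl⟩ := Grp.isG_bd B hc'
  obtain ⟨σ, hσ⟩ := exists_tr C ha hc
  have h1 : (fun i => τ ((Grp.frame C J v hv D' hD').y i)) =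
      Fin.snoc (α := fun _ => L) (fun i => τ (J.φ (C.y i))) (τ (tt J v)) := by
    funext i
    refine Fin.lastCases ?_ (fun i => ?_) i
    · simp [Grp.frame]
    · simp [Grp.frame]
  have h2 : (Grp.frame C J v hv D' hD').g = Grp.bd (B.mat fun i => J.φ (C.y i)) (tt J v) := by
    show (Grp.bl B).mat (Fin.snoc (α := fun _ => L) (fun i => J.φ (C.y i)) (tt J v)) = _
    exact Grp.mat_eq B _ _
  rw [h1, h2, Grp.mat_eq, Grp.bd_map, Grp.bd_map, Grp.bd_mul, Grp.bd_mul] at hac
  obtain ⟨h3, h4⟩ := Grp.bd_inj hac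
  have h5 : (B.mat fun i => τ (J.φ (C.y i))) = B.mat fun i => J.φ (σ (C.y i)) := by
    rw [h3, ← Tra.mat_hom (B := B) J.φ fun i => σ (C.y i), hσ.2.2]
    exact (Tra.tr_hom (B := B) J.φ a c C.y).symm
  have h6 := Tra.mat_inj h5
  have h7 : (τ : L →ₐ[k] L).comp J.φ = J.φ.comp (σ : K →ₐ[k] K) := by
    refine Tra.hom_ext C fun i => ?_
    exact congrFun h6 i
  refine ⟨σ, x * z, ⟨a, c, hσ⟩, mul_ne_zero hx hz, fun b => DFunLike.congr_fun h7 b, ?_⟩
  rw [h4, map_mul]
  ring

end GRP

end Cone

end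

end Pool.Agent.MLD.Mon
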