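import Pool.Agent.Lib.MP_f23696_ag.M2.Ctx

/-!
Project MON2 (MP_f23696_ag), module JOI: the coordinates `(y, t)`.
-/

set_option autoImplicit false

open scoped Classical Polynomial

namespace Pool.Agent.MLD.Mon

open Pool.Agent.MLD.Ten

noncomputable section

universe u v

section Cone

variable {k K L : Type u} [Field k] [Field K] [Field L] [Algebra k K] [Algebra k L]
  {J : Join k K (RatFunc k) L} {A : Subalgebra k K} {S : Subalgebra k L}

section JOI

namespace Joi

/-- the matrix of the change of the derivations -/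
def N {n : ℕ} (c : Fin n → L) (w : L) : Matrix (Fin (n + 1)) (Fin (n + 1)) L :=
  Matrix.of (Fin.snoc (α := fun _ => Fin (n + 1) → L)
    (fun i => Fin.snoc (α := fun _ => L) (Pi.single i 1) (c i))
    (Fin.snoc (α := fun _ => L) 0 w))

theorem det_N {n : ℕ} (c : Fin n → L) (w : L) : (N c w).det = w := by
  have h : (N c w).BlockTriangular id := by
    intro i j hij
    simp only [id] at hij
    refine Fin.lastCases ?_ (fun i => ?_) i (motive := fun i => j < i → N c w i j = 0) hij
    · intro hj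
      obtain ⟨j', rfl⟩ := Fin.exists_castSucc_eq.2 hj.ne
      simp [N]
    · intro hj
      have hj' : j ≠ Fin.last n := (lt_of_lt_of_le hj (Fin.le_last _)).ne
      obtain ⟨j', rfl⟩ := Fin.exists_castSucc_eq.2 hj'
      have h1 : j' < i := Fin.castSucc_lt_castSucc_iff.1 hj
      simp [N, Pi.single_eq_of_ne h1.ne]
  rw [Matrix.det_of_upperTriangular h, Fin.prod_univ_castSucc]
  simp [N]

end Joi

theorem joi (J : Join k K (RatFunc k) L) (v : K) (hv : v ≠ 0) {m : ℕ} (y₁ : Fin (m + 1) → K)
    (hg : IntermediateField.adjoin k (Set.range y₁) = ⊤)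
    (D₁ : Fin (m + 1) → Derivation k K K) (hD₁ : ∀ i j, D₁ i (y₁ j) = if i = j then 1 else 0)
    (D : Fin (m + 1 + 1) → Derivation k L L)
    (hD : IsJoint J D₁ (fun _ : Fin 1 => Lin.dd k) D) :
    ∃ D' : Fin (m + 1 + 1) → Derivation k L L,
      (∀ i j, D' i (Fin.snoc (α := fun _ => L) (fun i => J.φ (y₁ i)) (tt J v) j) =
        if i = j then 1 else 0) ∧
      ∀ a, jac D' a = J.φ v * jac D a := by
  obtain ⟨h1, h2, h3, h4⟩ := hD
  have hw : J.φ v ≠ 0 := (map_ne_zero _).2 hv
  have e1 : ∀ i a, D (Fin.castSucc i) (J.φ a) = J.φ (D₁ i a) := h1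
  have e2 : ∀ i, D (Fin.castSucc i) (ss J) = 0 := fun i => h2 i _
  have e3 : ∀ a, D (Fin.last (m + 1)) (J.φ a) = 0 := fun a => h3 0 a
  have e4 : D (Fin.last (m + 1)) (ss J) = 1 := by
    have h := h4 0 RatFunc.X
    rw [Lin.dd_X, map_one] at h
    exact h
  have ht : ∀ E : Derivation k L L, E (tt J v) =
      (E (ss J) * J.φ v - ss J * E (J.φ v)) / J.φ v ^ 2 := by
    intro E
    have h5 : tt J v * J.φ v = ss J := div_mul_cancel₀ _ hw
    have h6 := congrArg E h5
    rw [Derivation.leibniz, smul_eq_mul, smul_eq_mul] at h6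
    rw [eq_div_iff (pow_ne_zero 2 hw), ← h6, ← h5]
    ring
  set c : Fin (m + 1) → L := fun i => ss J * J.φ (D₁ i v) / J.φ v with hc
  let D' : Fin (m + 1 + 1) → Derivation k L L :=
    Fin.snoc (α := fun _ => Derivation k L L)
      (fun i => D (Fin.castSucc i) + c i • D (Fin.last (m + 1)))
      (J.φ v • D (Fin.last (m + 1)))
  have d1 : ∀ i x, D' (Fin.castSucc i) x =
      D (Fin.castSucc i) x + c i * D (Fin.last (m + 1)) x := by
    intro i x
    simp only [D', Fin.snoc_castSucc]
    rfl
  have d2 : ∀ x, D' (Fin.last (m + 1)) x = J.φ v * D (Fin.last (m + 1)) x := by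
    intro x
    simp only [D', Fin.snoc_last]
    rfl
  refine ⟨D', fun i j => ?_, fun a => ?_⟩
  · refine Fin.lastCases ?_ (fun i => ?_) i <;> refine Fin.lastCases ?_ (fun j => ?_) j
    · rw [Fin.snoc_last, d2, ht, e3, e4, if_pos rfl]
      field_simp
      ring
    · rw [Fin.snoc_castSucc, d2, e3, mul_zero, if_neg (Fin.castSucc_lt_last j).ne']
    · rw [Fin.snoc_last, d1, ht, ht, e2, e1, e3, e4, if_neg (Fin.castSucc_lt_last i).ne, hc]
      field_simp
      ring
    · rw [Fin.snoc_castSucc, d1, e1, e3, mul_zero, add_zero, hD₁]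
      by_cases h : i = j
      · rw [if_pos h, if_pos (by rw [h]), map_one]
      · rw [if_neg h, if_neg (fun h' => h (Fin.castSucc_injective _ h')), map_zero]
  · have hM : (Matrix.of fun i j => D' i (a j)) =
        Joi.N c (J.φ v) * (Matrix.of fun i j => D i (a j)) := by
      ext i j
      rw [Matrix.mul_apply, Fin.sum_univ_castSucc]
      refine Fin.lastCases ?_ (fun i => ?_) i
      · simp [Joi.N, d2]
      · simp [Joi.N, d1, Pi.single_apply]
    unfold jac
    rw [hM, Matrix.det_mul, Joi.det_N]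

end JOI

end Cone

end

end Pool.Agent.MLD.Mon
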