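import Pool.Agent.Lib.MP_f23696_ag.M2.Ctx

/-!
# MON2 (MP_f23696_ag), module LCL: localisation
-/

set_option autoImplicit false

open scoped Classical Polynomial

namespace Pool.Agent.MLD.Mon

open Pool.Agent.MLD.Ten

noncomputable section

universe u v

section LCL

variable {k : Type u} {L : Type v} [Field k] [Field L] [Algebra k L] {R R' : Subalgebra k L}

/-- `s` as an element of `R'` -/
theorem Lcl.mem_of_pow_mul {Q : Ideal R'} (hQ : Q.IsPrime) {s f : R'} (hs : s ∉ Q) {n : ℕ}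
    (h : s ^ n * f ∈ Q) : f ∈ Q :=
  (hQ.mem_or_mem h).resolve_left fun h1 => hs (hQ.mem_of_pow_mem n h1)

theorem lcl_inj (hle : R ≤ R') {s : L} (hs : s ∈ R)
    (hd : ∀ f ∈ R', ∃ n : ℕ, s ^ n * f ∈ R) {Q Q' : Ideal R'} (hQ : Q.IsPrime) (hQ' : Q'.IsPrime)
    (hsQ : (⟨s, hle hs⟩ : R') ∉ Q) (hsQ' : (⟨s, hle hs⟩ : R') ∉ Q')
    (h : Q.comap (Subalgebra.inclusion hle) ≤ Q'.comap (Subalgebra.inclusion hle)) : Q ≤ Q' := by
  intro f hf
  obtain ⟨n, hn⟩ := hd f f.2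
  have h1 : (⟨s ^ n * (f : L), hn⟩ : R) ∈ Q.comap (Subalgebra.inclusion hle) := by
    have h2 : Subalgebra.inclusion hle ⟨s ^ n * (f : L), hn⟩ = ⟨s, hle hs⟩ ^ n * f :=
      Subtype.ext rfl
    rw [Ideal.mem_comap, h2]
    exact Q.mul_mem_left _ hf
  have h2 := h h1
  rw [Ideal.mem_comap] at h2
  have h3 : Subalgebra.inclusion hle ⟨s ^ n * (f : L), hn⟩ = ⟨s, hle hs⟩ ^ n * f :=
    Subtype.ext rfl
  rw [h3] at h2
  exact Lcl.mem_of_pow_mul hQ' hsQ' h2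

theorem lcl_center (hle : R ≤ R') {s : L} (hs : s ∈ R)
    (hd : ∀ f ∈ R', ∃ n : ℕ, s ^ n * f ∈ R) {Q : Ideal R'} (hQ : Q.IsPrime)
    (hsQ : (⟨s, hle hs⟩ : R') ∉ Q) (v : DVal k L) :
    v.HasCenter R (Q.comap (Subalgebra.inclusion hle)) ↔ v.HasCenter R' Q := by
  constructor
  · rintro ⟨h1, h2⟩
    have hs0 : s ≠ 0 := by
      rintro rfl
      exact hsQ Q.zero_mem
    have hsv : v.ord s = 0 := by
      have h3 := h1 ⟨s, hs⟩ hs0
      have h4 : ¬ v.Small s := fun h => hsQ ((h2 ⟨s, hs⟩).2 h)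
      by_contra h5
      exact h4 fun _ => lt_of_le_of_ne h3 (Ne.symm h5)
    have hpow : ∀ n : ℕ, v.ord (s ^ n) = 0 := by
      intro n
      induction n with
      | zero =>
        have h3 := v.ord_mul 1 1 one_ne_zero one_ne_zero
        rw [mul_one] at h3
        rw [pow_zero]
        omega
      | succ n ih => rw [pow_succ, v.ord_mul _ _ (pow_ne_zero _ hs0) hs0, ih, hsv, add_zero]
    have hord : ∀ (n : ℕ) (f : L), f ≠ 0 → v.ord (s ^ n * f) = v.ord f := by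
      intro n f hf
      rw [v.ord_mul _ _ (pow_ne_zero _ hs0) hf, hpow, zero_add]
    refine ⟨fun f hf => ?_, fun f => ?_⟩
    · obtain ⟨n, hn⟩ := hd f f.2
      have h3 := h1 ⟨_, hn⟩ (mul_ne_zero (pow_ne_zero _ hs0) hf)
      change 0 ≤ v.ord (s ^ n * (f : L)) at h3
      rwa [hord n f hf] at h3
    · obtain ⟨n, hn⟩ := hd f f.2
      have h3 := h2 ⟨_, hn⟩
      have h4 : Subalgebra.inclusion hle ⟨s ^ n * (f : L), hn⟩ = ⟨s, hle hs⟩ ^ n * f :=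
        Subtype.ext rfl
      rw [Ideal.mem_comap, h4] at h3
      constructor
      · intro hf hf0
        have h5 := h3.1 (Q.mul_mem_left _ hf) (mul_ne_zero (pow_ne_zero _ hs0) hf0)
        change 0 < v.ord (s ^ n * (f : L)) at h5
        rwa [hord n f hf0] at h5
      · intro hf
        refine Lcl.mem_of_pow_mul hQ hsQ (h3.2 fun h5 => ?_)
        have h6 : (f : L) ≠ 0 := right_ne_zero_of_mul h5
        change 0 < v.ord (s ^ n * (f : L))
        rw [hord n f h6]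
        exact hf h6
  · rintro ⟨h1, h2⟩
    exact ⟨fun a => h1 (Subalgebra.inclusion hle a), fun a => h2 (Subalgebra.inclusion hle a)⟩

/-- the ideal of `R'` generated by a prime ideal of `R` without `s` -/
def Lcl.ext (hle : R ≤ R') {s : L} (hs : s ∈ R)
    (hd : ∀ f ∈ R', ∃ n : ℕ, s ^ n * f ∈ R) (P : Ideal R) : Ideal R' where
  carrier := {f | ∃ (n : ℕ) (g : R), g ∈ P ∧ (g : L) = s ^ n * (f : L)}
  zero_mem' := ⟨0, 0, P.zero_mem, by simp⟩
  add_mem' := by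
    rintro f f' ⟨n, g, hg, h⟩ ⟨n', g', hg', h'⟩
    refine ⟨n + n', ⟨s, hs⟩ ^ n' * g + ⟨s, hs⟩ ^ n * g',
      P.add_mem (P.mul_mem_left _ hg) (P.mul_mem_left _ hg'), ?_⟩
    change s ^ n' * (g : L) + s ^ n * (g' : L) = s ^ (n + n') * ((f : L) + (f' : L))
    rw [h, h', pow_add]
    ring
  smul_mem' := by
    rintro r f ⟨n, g, hg, h⟩
    obtain ⟨m, hm⟩ := hd r r.2
    refine ⟨m + n, ⟨_, hm⟩ * g, P.mul_mem_left _ hg, ?_⟩
    change s ^ m * (r : L) * (g : L) = s ^ (m + n) * ((r : L) * (f : L))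
    rw [h, pow_add]
    ring

theorem lcl_exists (hle : R ≤ R') {s : L} (hs : s ∈ R)
    (hd : ∀ f ∈ R', ∃ n : ℕ, s ^ n * f ∈ R) {P : Ideal R} (hP : P.IsPrime)
    (hsP : (⟨s, hs⟩ : R) ∉ P) :
    ∃ Q : Ideal R', Q.IsPrime ∧ (⟨s, hle hs⟩ : R') ∉ Q ∧
      Q.comap (Subalgebra.inclusion hle) = P := by
  have hpow : ∀ n : ℕ, (⟨s, hs⟩ : R) ^ n ∉ P := fun n h => hsP (hP.mem_of_pow_mem n h)
  have hcomap : (Lcl.ext hle hs hd P).comap (Subalgebra.inclusion hle) = P := by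
    ext f
    rw [Ideal.mem_comap]
    constructor
    · rintro ⟨n, g, hg, h⟩
      have h1 : g = ⟨s, hs⟩ ^ n * f := Subtype.ext h
      rw [h1] at hg
      exact (hP.mem_or_mem hg).resolve_left (hpow n)
    · intro hf
      exact ⟨0, f, hf, by simp⟩
  refine ⟨Lcl.ext hle hs hd P, ⟨?_, ?_⟩, ?_, hcomap⟩
  · intro h
    have h1 : (1 : R) ∈ (Lcl.ext hle hs hd P).comap (Subalgebra.inclusion hle) := by
      rw [h, Ideal.comap_top]
      trivial
    rw [hcomap] at h1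
    exact hP.ne_top ((Ideal.eq_top_iff_one _).2 h1)
  · rintro f f' ⟨n, g, hg, h⟩
    obtain ⟨a, ha⟩ := hd f f.2
    obtain ⟨b, hb⟩ := hd f' f'.2
    have h1 : (⟨s, hs⟩ : R) ^ n * (⟨_, ha⟩ * ⟨_, hb⟩) = ⟨s, hs⟩ ^ (a + b) * g := by
      apply Subtype.ext
      change s ^ n * (s ^ a * (f : L) * (s ^ b * (f' : L))) = s ^ (a + b) * (g : L)
      rw [h]
      change _ = s ^ (a + b) * (s ^ n * ((f : L) * (f' : L)))
      ring
    have h2 : (⟨s, hs⟩ : R) ^ n * (⟨_, ha⟩ * ⟨_, hb⟩) ∈ P := by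
      rw [h1]
      exact P.mul_mem_left _ hg
    rcases hP.mem_or_mem ((hP.mem_or_mem h2).resolve_left (hpow n)) with h3 | h3
    · exact Or.inl ⟨a, ⟨_, ha⟩, h3, rfl⟩
    · exact Or.inr ⟨b, ⟨_, hb⟩, h3, rfl⟩
  · intro h
    have h1 : (⟨s, hs⟩ : R) ∈ (Lcl.ext hle hs hd P).comap (Subalgebra.inclusion hle) := h
    rw [hcomap] at h1
    exact hsP h1

theorem Lcl.comap_ne_bot (hle : R ≤ R') {s : L} (hs : s ∈ R)
    (hd : ∀ f ∈ R', ∃ n : ℕ, s ^ n * f ∈ R) {Q : Ideal R'}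
    (hsQ : (⟨s, hle hs⟩ : R') ∉ Q) (h : Q ≠ ⊥) : Q.comap (Subalgebra.inclusion hle) ≠ ⊥ := by
  obtain ⟨f, hf, hf0⟩ := Submodule.exists_mem_ne_zero_of_ne_bot h
  obtain ⟨n, hn⟩ := hd f f.2
  intro h1
  have hs0 : s ≠ 0 := by
    rintro rfl
    exact hsQ Q.zero_mem
  have h2 : (⟨s ^ n * (f : L), hn⟩ : R) ∈ Q.comap (Subalgebra.inclusion hle) := by
    have h3 : Subalgebra.inclusion hle ⟨s ^ n * (f : L), hn⟩ = ⟨s, hle hs⟩ ^ n * f :=
      Subtype.ext rfl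
    rw [Ideal.mem_comap, h3]
    exact Q.mul_mem_left _ hf
  rw [h1, Ideal.mem_bot] at h2
  have h3 : s ^ n * (f : L) = 0 := congrArg Subtype.val h2
  rcases mul_eq_zero.1 h3 with h4 | h4
  · exact pow_ne_zero _ hs0 h4
  · exact hf0 (Subtype.ext h4)

theorem lcl_height (hle : R ≤ R') {s : L} (hs : s ∈ R)
    (hd : ∀ f ∈ R', ∃ n : ℕ, s ^ n * f ∈ R) {Q : Ideal R'} (hQ : Q.IsPrime)
    (hsQ : (⟨s, hle hs⟩ : R') ∉ Q) :
    IsHeightOne (Q.comap (Subalgebra.inclusion hle)) ↔ IsHeightOne Q := by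
  have hbot : (⊥ : Ideal R').comap (Subalgebra.inclusion hle) = ⊥ := by
    ext f
    rw [Ideal.mem_comap, Ideal.mem_bot, Ideal.mem_bot]
    constructor
    · intro h
      exact Subtype.ext (congrArg (fun z : R' => (z : L)) h)
    · rintro rfl
      exact map_zero _
  constructor
  · rintro ⟨-, h1, h2⟩
    refine ⟨hQ, ?_, fun q hq hq0 hqQ => ?_⟩
    · rintro rfl
      exact h1 hbot
    · have hsq : (⟨s, hle hs⟩ : R') ∉ q := fun h => hsQ (hqQ h)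
      have h3 := h2 _ (hq.comap _) (Lcl.comap_ne_bot hle hs hd hsq hq0) (Ideal.comap_mono hqQ)
      exact le_antisymm hqQ (lcl_inj hle hs hd hQ hq hsQ hsq h3.ge)
  · rintro ⟨-, h1, h2⟩
    refine ⟨hQ.comap _, Lcl.comap_ne_bot hle hs hd hsQ h1, fun q hq hq0 hqQ => ?_⟩
    have hsq : (⟨s, hs⟩ : R) ∉ q := fun h => hsQ (hqQ h)
    obtain ⟨q', hq', hsq', rfl⟩ := lcl_exists hle hs hd hq hsq
    have h3 : q' ≠ ⊥ := by
      rintro rfl
      exact hq0 hbot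
    rw [h2 q' hq' h3 (lcl_inj hle hs hd hq' hQ hsq' hsQ hqQ)]

end LCL

end

end Pool.Agent.MLD.Mon
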