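import Pool.Agent.Lib.MP_f23696_ag.M2.Ctx
import Pool.Agent.Lib.MP_f23696_ag.M2.Lcl
import Pool.Agent.Lib.MP_f23696_ag.M2.Cone
import Pool.Agent.Lib.MP_f23696_ag.M2.Shp
import Pool.Agent.Lib.MP_f23696_ag.T.Prod

/-!
Project MON2 (MP_f23696_ag), module LEQ: the local equation on the cone.
-/

set_option autoImplicit false

open scoped Classical Polynomial

namespace Pool.Agent.MLD.Mon

open Pool.Agent.MLD.Ten

noncomputable section

universe u v

variable {k K L : Type u} [Field k] [Field K] [Field L] [Algebra k K] [Algebra k L]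
  {J : Join k K (RatFunc k) L} {A : Subalgebra k K} {S : Subalgebra k L}

section LEQ

variable [IsAlgClosed k] [CharZero k]

namespace Leq

/-- a divisor whose valuation is trivial on `K` is not a cone over a divisor -/
theorem not_sh (h : IsCone J A S) {Q : Ideal S} {v : DVal k L} (hv : v.HasCenter S Q)
    (ht : ∀ a : K, a ≠ 0 → v.ord (J.φ a) = 0) : ¬ ∃ p, IsHeightOne p ∧ Q = h.sh p := by
  rintro ⟨p, hp, rfl⟩
  obtain ⟨v₁, -, hv₁⟩ := sh_val h hp hv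
  obtain ⟨a, ha, ha1⟩ := v₁.exists_ord_eq_one
  rw [← hv₁ a ha, ht a ha] at ha1
  exact zero_ne_one ha1

theorem dual_X : ∀ i l : Fin 1, (fun _ : Fin 1 => Lin.dd k) i
    ((fun _ : Fin 1 => (RatFunc.X : RatFunc k)) l) = if i = l then 1 else 0 := by
  intro i l
  rw [if_pos (Subsingleton.elim i l)]
  exact Lin.dd_X

end Leq

theorem leq (h : IsCone J A S) {m : ℕ} (y₁ : Fin (m + 1) → K)
    (D₁ : Fin (m + 1) → Derivation k K K) (hD₁ : ∀ i j, D₁ i (y₁ j) = if i = j then 1 else 0)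
    (D : Fin (m + 1 + 1) → Derivation k L L)
    (hD : IsJoint J D₁ (fun _ : Fin 1 => Lin.dd k) D) (δ : Ideal A →₀ ℝ) (δ' : Ideal S →₀ ℝ)
    (h1 : ∀ p, IsHeightOne p → δ' (h.sh p) = δ p)
    (h2 : ∀ Q, (¬ ∃ p, IsHeightOne p ∧ Q = h.sh p) → δ' Q = 0)
    {x : MaximalSpectrum A} {z : MaximalSpectrum S} (hz : h.Lies x z) {γ : Kˣ →₀ ℝ}
    (hγ : IsLocalEq A D₁ δ x.asIdeal γ) : IsLocalEq S D δ' z.asIdeal (push J.φ γ) := by
  intro q hq hht v hv j hj
  have hs : h.s ∉ q := fun hmem => lies_s h hz (hq hmem)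
  obtain ⟨Q, hQ, hsQ, rfl⟩ := lcl_exists h.le h.mem h.den hht.1 hs
  have hQh : IsHeightOne Q := (lcl_height h.le h.mem h.den hQ hsQ).1 hht
  have hvQ : v.HasCenter (S2 J A) Q := (lcl_center h.le h.mem h.den hQ hsQ v).1 hv
  have hP := isProd J A
  have hA := aa_good k
  have hS := good2 h
  rcases trichotomy hP h.good₁ hA Q hQh with ⟨P, hPh, rfl⟩ | ⟨P, hPh, rfl⟩ | ⟨hq₁, hq₂⟩
  · obtain ⟨v₁, hv₁, ho, -, hf⟩ := hv_left hP h.good₁ hA hS hD y₁ hD₁
      (fun _ => RatFunc.X) Leq.dual_X P hPh v hvQ j hj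
    have hle : P ≤ x.asIdeal := sh_le h hPh.1 hz hq
    have e1 : δ' ((P.map (i1 J A)).comap (Subalgebra.inclusion h.le)) = δ P := h1 P hPh
    rw [e1, val_push J.φ v v₁ 1 (by
      intro a ha; rw [ho a ha, one_mul]), one_mul, ← hγ P hle hPh v₁ hv₁ j hf]
  · obtain ⟨v₂, hv₂, ho, ht, hf⟩ := hv_right hP h.good₁ hA hS hD y₁ hD₁
      (fun _ => RatFunc.X) Leq.dual_X P hPh v hvQ j hj
    obtain ⟨c, rfl⟩ := Lin.height_form hPh
    have hj0 : j = 0 := Lin.form_unique (Lin.at_of hv₂) hf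
    rw [val_push_zero J.φ v ht, h2 _ (Leq.not_sh h hv ht), hj0]
    simp
  · obtain ⟨hj0, ht₁, -⟩ := hv_mixed hP h.good₁ hA hS hD y₁ hD₁
      (fun _ => RatFunc.X) Leq.dual_X Q hQh hq₁ hq₂ v hvQ j hj
    rw [val_push_zero J.φ v ht₁, h2 _ (Leq.not_sh h hv ht₁), hj0]
    simp

end LEQ

end

end Pool.Agent.MLD.Mon
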