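import Pool.Agent.Lib.MP_f23696_ag.M2.Ctx
import Pool.Agent.Lib.MP_f23696_ag.M2.Lcl
import Pool.Agent.Lib.MP_f23696_ag.M2.Cone
import Pool.Agent.Lib.MP_f23696_ag.M2.Leq
import Pool.Agent.Lib.MP_f23696_ag.T.Prod

/-!
Log discrepancies of the cone are bounded below by log discrepancies of the base
(module LDN of the project MON2, MP_f23696_ag).
-/

set_option autoImplicit false

open scoped Classical Polynomial

namespace Pool.Agent.MLD.Mon

open Pool.Agent.MLD.Ten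

noncomputable section

universe u v

namespace Ldn

/-- closed points are not generic -/
theorem exists_mem {k : Type u} {K : Type v} [Field k] [IsAlgClosed k] [Field K] [Algebra k K]
    {A : Subalgebra k K} (hA : IsGood A) {y : K} (hy : Transcendental k y)
    (x : MaximalSpectrum A) : ∃ a ∈ x.asIdeal, (a : K) ≠ 0 := by
  by_contra hcon
  push Not at hcon
  have hft : Algebra.FiniteType k A := (Subalgebra.fg_iff_finiteType _).1 hA.fg
  obtain ⟨β, rfl⟩ := PTS.exists_pt (k := k) x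
  have hconst : ∀ a : A, (a : K) = algebraMap k K (β a) := by
    intro a
    have h1 : a - algebraMap k A (β a) ∈ (PTS.pt β).asIdeal := by
      rw [PTS.mem_pt, map_sub, AlgHom.commutes]
      exact sub_self _
    have h3 : (a : K) - algebraMap k K (β a) = 0 := hcon _ h1
    exact sub_eq_zero.1 h3
  obtain ⟨a, b, hb, hab⟩ := hA.frac y
  apply hy
  rw [hab, hconst a, hconst b, ← map_div₀]
  exact isAlgebraic_algebraMap _

/-- the centre of a component of a valuation -/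
theorem center_of {k : Type u} {K L : Type v} [Field k] [Field K] [Field L] [Algebra k K]
    [Algebra k L] (φ : K →ₐ[k] L) (v : DVal k L) (v₁ : DVal k K) (n : ℕ) (hn : 1 ≤ n)
    (ho : ∀ a, a ≠ 0 → v.ord (φ a) = n * v₁.ord a) {A : Subalgebra k K} {p : Ideal A}
    (hi : ∀ a : A, v.Integral (φ a)) (hs : ∀ a : A, a ∈ p ↔ v.Small (φ a)) :
    v₁.HasCenter A p := by
  have hn' : (0 : ℤ) < n := by exact_mod_cast hn
  refine ⟨fun a ha => ?_, fun a => ?_⟩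
  · have h1 := hi a (by rw [Ne, map_eq_zero]; exact ha)
    rw [ho _ ha] at h1
    exact nonneg_of_mul_nonneg_right h1 hn'
  · rw [hs a]
    constructor
    · intro h ha
      have h1 := h (by rw [Ne, map_eq_zero]; exact ha)
      rw [ho _ ha] at h1
      exact (mul_pos_iff_of_pos_left hn').1 h1
    · intro h ha
      have ha' : (a : K) ≠ 0 := by
        intro h0
        apply ha
        rw [h0, map_zero]
      rw [ho _ ha']
      exact mul_pos hn' (h ha')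

end Ldn

variable {k K L : Type u} [Field k] [Field K] [Field L] [Algebra k K] [Algebra k L]
  {J : Join k K (RatFunc k) L} {A : Subalgebra k K} {S : Subalgebra k L}

variable [IsAlgClosed k] [CharZero k]

theorem ldn (h : IsCone J A S) {m : ℕ} (y₁ : Fin (m + 1) → K) (hy₁ : IsTranscendenceBasis k y₁)
    (D₁ : Fin (m + 1) → Derivation k K K) (hD₁ : ∀ i j, D₁ i (y₁ j) = if i = j then 1 else 0)
    (D : Fin (m + 1 + 1) → Derivation k L L)
    (hD : IsJoint J D₁ (fun _ : Fin 1 => Lin.dd k) D) (δ : Ideal A →₀ ℝ) (δ' : Ideal S →₀ ℝ)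
    (h1 : ∀ p, IsHeightOne p → δ' (h.sh p) = δ p)
    (h2 : ∀ Q, (¬ ∃ p, IsHeightOne p ∧ Q = h.sh p) → δ' Q = 0)
    {x : MaximalSpectrum A} {z : MaximalSpectrum S} (hz : h.Lies x z)
    (hγ : ∃ γ, IsLocalEq A D₁ δ x.asIdeal γ) :
    ∀ l ∈ logDiscs S D δ' z, ∃ l₁ ∈ logDiscs A D₁ δ x, ∃ n : ℕ, 1 ≤ n ∧ n * l₁ + 1 ≤ l := by
  obtain ⟨γ₁, e₁⟩ := hγ
  rintro l ⟨v, hdiv, hcen, j, hj, γ, hγ, rfl⟩
  have e₂ := leq h y₁ D₁ hD₁ D hD δ δ' h1 h2 hz e₁
  have hjac : ∃ c, jac D c ≠ 0 := by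
    obtain ⟨c, _, hc, _⟩ := hj.2
    exact ⟨c, hc⟩
  have hval : v.val γ = v.val (push J.φ γ₁) :=
    indep_gen S h.good D hjac δ' z.asIdeal z.isMaximal.isPrime γ _ hγ e₂ v hcen
  have hsz : h.s ∉ z.asIdeal := lies_s h hz
  obtain ⟨z₂, hov, hzz⟩ := hz
  have hcen₂ : v.HasCenter (S2 J A) z₂.asIdeal := by
    refine (lcl_center h.le h.mem h.den z₂.isMaximal.isPrime ?_ v).1 ?_
    · intro hmem
      apply hsz
      rw [hzz]
      exact hmem
    · rw [hzz] at hcen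
      exact hcen
  obtain ⟨⟨hi₁, hs₁⟩, hi₂, hs₂⟩ :=
    (over_center (isProd J A) h.good₁ (aa_good k) x (p1 k) z₂ hov v).1 hcen₂
  obtain ⟨a, ha, ha0⟩ := Ldn.exists_mem h.good₁ (hy₁.1.transcendental 0) x
  have hposa : 0 < v.ord (J.φ (a : K)) := (hs₁ a).1 ha (by rw [Ne, map_eq_zero]; exact ha0)
  have hb : Lin.ee k (Polynomial.X - Polynomial.C 1) ∈ (p1 k).asIdeal := by
    change _ ∈ Lin.PP 1
    rw [Lin.mem_PP]
    simp
  have hb0 : ((Lin.ee k (Polynomial.X - Polynomial.C 1) : Lin.AA k) : RatFunc k) ≠ 0 :=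
    Lin.im_ne (Polynomial.X_sub_C_ne_zero 1)
  have hposb : 0 < v.ord (J.ψ ((Lin.ee k (Polynomial.X - Polynomial.C 1) : Lin.AA k) :
      RatFunc k)) := (hs₂ _).1 hb (by rw [Ne, map_eq_zero]; exact hb0)
  obtain ⟨n₁, n₂, v₁, v₂, j₁, j₂, hn₁, hn₂, ho₁, ho₂, hd₁, hd₂, hf₁, hf₂, hle⟩ :=
    low J y₁ hy₁ D₁ hD₁ (m₂ := 0) (fun _ => RatFunc.X) Lin.basis_X (fun _ => Lin.dd k)
      (by
        intro i j
        rw [Lin.dd_X, if_pos (Subsingleton.elim (α := Fin 1) i j)]) D hD v hdiv j hj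
      ⟨a, ha0, hposa⟩ ⟨_, hb0, hposb⟩
  have c₁ : v₁.HasCenter A x.asIdeal := Ldn.center_of J.φ v v₁ n₁ hn₁ ho₁ hi₁ hs₁
  have c₂ : v₂.HasCenter (Lin.AA k) (Lin.PP 1) := Ldn.center_of J.ψ v v₂ n₂ hn₂ ho₂ hi₂ hs₂
  have hj₂ : j₂ = 0 := Lin.form_unique (Lin.at_of c₂) hf₂
  refine ⟨1 + (j₁ : ℝ) - v₁.val γ₁, ⟨v₁, hd₁, c₁, j₁, hf₁, γ₁, e₁, rfl⟩, n₁, hn₁, ?_⟩
  rw [hval, val_push J.φ v v₁ n₁ (by intro a ha; rw [ho₁ a ha]; push_cast; rfl)]
  rw [hj₂] at hle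
  have hle' : (n₁ : ℝ) * (j₁ + 1) + n₂ * (0 + 1) ≤ j + 1 := by exact_mod_cast hle
  have hn₂' : (1 : ℝ) ≤ n₂ := by exact_mod_cast hn₂
  linarith

end

end Pool.Agent.MLD.Mon
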