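import Pool.Agent.Lib.MP_f23696_ag.M2.Ctx
import Pool.Agent.Lib.MP_f23696_ag.M2.Lcl
import Pool.Agent.Lib.MP_f23696_ag.M2.Cone
import Pool.Agent.Lib.MP_f23696_ag.M2.Leq
import Pool.Agent.Lib.MP_f23696_ag.T.Prod

/-!
Log discrepancies of the affine cone: the upper estimate.
-/

set_option autoImplicit false

open scoped Classical Polynomial

namespace Pool.Agent.MLD.Mon

open Pool.Agent.MLD.Ten

noncomputable section

universe u

section Cone

variable {k K L : Type u} [Field k] [Field K] [Field L] [Algebra k K] [Algebra k L]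
  {J : Join k K (RatFunc k) L} {A : Subalgebra k K} {S : Subalgebra k L}

section LUP

variable [IsAlgClosed k] [CharZero k]

omit [CharZero k] in
/-- a valuation centred at the point `s = 1` of the line over `x` is centred at the point of the
cone -/
theorem Lup.center (h : IsCone J A S) {x : MaximalSpectrum A} {z : MaximalSpectrum S}
    (hz : h.Lies x z) (v : DVal k L)
    (hA : (∀ a : A, v.Integral (J.φ a)) ∧ ∀ a : A, a ∈ x.asIdeal ↔ v.Small (J.φ a))
    (hB : (∀ b : Lin.AA k, v.Integral (J.ψ b)) ∧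
      ∀ b : Lin.AA k, b ∈ (Lin.PP 1 : Ideal (Lin.AA k)) ↔ v.Small (J.ψ b)) :
    v.HasCenter S z.asIdeal := by
  have hs := lies_s h hz
  obtain ⟨z₂, hz₂, e⟩ := hz
  have hsQ : (⟨ss J, h.le h.mem⟩ : S2 J A) ∉ z₂.asIdeal := by
    intro hmem
    apply hs
    rw [e, Ideal.mem_comap]
    exact hmem
  have hc : v.HasCenter (S2 J A) z₂.asIdeal :=
    (over_center (isProd J A) h.good₁ (aa_good k) x (p1 k) z₂ hz₂ v).2 ⟨hA, hB⟩
  rw [e]
  exact (lcl_center h.le h.mem h.den z₂.isMaximal.isPrime hsQ v).2 hc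

theorem lup (h : IsCone J A S) {m : ℕ} (y₁ : Fin (m + 1) → K) (hy₁ : IsTranscendenceBasis k y₁)
    (D₁ : Fin (m + 1) → Derivation k K K) (hD₁ : ∀ i j, D₁ i (y₁ j) = if i = j then 1 else 0)
    (D : Fin (m + 1 + 1) → Derivation k L L)
    (hD : IsJoint J D₁ (fun _ : Fin 1 => Lin.dd k) D) (δ : Ideal A →₀ ℝ) (δ' : Ideal S →₀ ℝ)
    (h1 : ∀ p, IsHeightOne p → δ' (h.sh p) = δ p)
    (h2 : ∀ Q, (¬ ∃ p, IsHeightOne p ∧ Q = h.sh p) → δ' Q = 0)
    {x : MaximalSpectrum A} {z : MaximalSpectrum S} (hz : h.Lies x z) :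
    ∀ l₁ ∈ logDiscs A D₁ δ x, ∀ w : ℕ, 1 ≤ w → ∃ l ∈ logDiscs S D δ' z, l ≤ w * l₁ + 1 := by
  intro l₁ hl₁ w hw
  obtain ⟨v₁, hd₁, c₁, j₁, hf₁', γ₁, e₁, rfl⟩ := hl₁
  obtain ⟨v₂, c₂⟩ := Lin.exists_val (1 : k)
  have hat : Lin.At v₂ (1 : k) := Lin.at_of c₂
  have hd₂ : v₂.IsDivisorial 0 := Lin.divisorial_zero v₂
  obtain ⟨v, hv⟩ := tensorVal_exists J v₁ v₂ w hw
  obtain ⟨b₁, E₁, hb₁⟩ := logBasis v₁ y₁ hy₁ D₁ hD₁ hd₁ j₁ hf₁'
  obtain ⟨b₂, E₂, hb₂⟩ := logBasis v₂ (fun _ : Fin (0 + 1) => (RatFunc.X : RatFunc k))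
    Lin.basis_X (fun _ : Fin (0 + 1) => Lin.dd k) (by
      intro i j
      rw [Lin.dd_X, if_pos (Subsingleton.elim (α := Fin 1) i j)]) hd₂ 0 (Lin.form_zero hat)
  obtain ⟨j, hj, hjle⟩ := tensorVal_form J hv hD hb₁ hb₂
  have e₁₂ := leq h y₁ D₁ hD₁ D hD δ δ' h1 h2 hz e₁
  have hw' : (0 : ℤ) < w := by exact_mod_cast hw
  have hcen : v.HasCenter S z.asIdeal := by
    refine Lup.center h hz v ⟨fun a ha => ?_, fun a => ?_⟩ ⟨fun b hb => ?_, fun b => ?_⟩
    · have ha' : (a : K) ≠ 0 := by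
        intro h0; apply ha; rw [h0, map_zero]
      rw [hv.ord_φ _ ha']
      exact mul_nonneg hw'.le (c₁.1 a ha')
    · rw [c₁.2 a]
      constructor
      · intro h ha
        have ha' : (a : K) ≠ 0 := by
          intro h0; apply ha; rw [h0, map_zero]
        rw [hv.ord_φ _ ha']
        exact mul_pos hw' (h ha')
      · intro h ha
        have h1 := h (by rw [Ne, map_eq_zero]; exact ha)
        rw [hv.ord_φ _ ha] at h1
        exact (mul_pos_iff_of_pos_left hw').1 h1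
    · have hb' : (b : RatFunc k) ≠ 0 := by
        intro h0; apply hb; rw [h0, map_zero]
      rw [hv.ord_ψ _ hb']
      exact c₂.1 b hb'
    · rw [c₂.2 b]
      constructor
      · intro h hb
        have hb' : (b : RatFunc k) ≠ 0 := by
          intro h0; apply hb; rw [h0, map_zero]
        rw [hv.ord_ψ _ hb']
        exact h hb'
      · intro h hb
        have h1 := h (by rw [Ne, map_eq_zero]; exact hb)
        rwa [hv.ord_ψ _ hb] at h1
  refine ⟨1 + (j : ℝ) - v.val (push J.φ γ₁),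
    ⟨v, tensorVal_div J hv hd₁ hd₂, hcen, j, hj, _, e₁₂, rfl⟩, ?_⟩
  rw [val_push J.φ v v₁ w (by intro a ha; rw [hv.ord_φ a ha]; push_cast; rfl)]
  have hle' : (j : ℝ) + 1 ≤ w * (j₁ + 1) + (0 + 1) := by exact_mod_cast hjle
  linarith

end LUP

end Cone

end

end Pool.Agent.MLD.Mon
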