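import Pool.Agent.Lib.MP_f23696_ag.M2.Ctx

/-!
Transfer of lower semicontinuity from the cone to the base (module TOP of MON2, MP_f23696_ag).
-/

set_option autoImplicit false

open scoped Classical Polynomial

namespace Pool.Agent.MLD.Mon

open Pool.Agent.MLD.Ten

noncomputable section

universe u v

section TOP

/-- the minimal value of a set of log discrepancies -/
def mm (E : Set ℝ) : EReal := if ∃ l ∈ E, l < 0 then ⊥ else ⨅ l ∈ E, (l : EReal)

theorem mld_eq_mm {k : Type u} {K : Type v} [Field k] [Field K] [Algebra k K] (A : Subalgebra k K)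
    {m : ℕ} (D : Fin (m + 1) → Derivation k K K) (δ : Ideal A →₀ ℝ) (x : MaximalSpectrum A) :
    mld A D δ x = mm (logDiscs A D δ x) := by
  unfold mld mm
  congr

namespace Top

theorem lt_mm {E : Set ℝ} {c : ℝ} (hc : 0 ≤ c) (h : (c : EReal) < mm E) : ∀ l ∈ E, c < l := by
  unfold mm at h
  split_ifs at h with h1
  · exact absurd h (by simp)
  · intro l hl
    have h2 : (⨅ l ∈ E, (l : EReal)) ≤ (l : EReal) := iInf₂_le l hl
    exact_mod_cast lt_of_lt_of_le h h2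

theorem le_mm {E : Set ℝ} {c : ℝ} (h0 : ∀ l ∈ E, 0 ≤ l) (h : ∀ l ∈ E, c ≤ l) :
    (c : EReal) ≤ mm E := by
  unfold mm
  rw [if_neg]
  · refine le_iInf₂ fun l hl => ?_
    exact_mod_cast h l hl
  · rintro ⟨l, hl, hl0⟩
    exact absurd (h0 l hl) (not_le.2 hl0)

end Top

theorem lsc_down {X : Type u} {Y : Type v} [TopologicalSpace X] [TopologicalSpace Y] (f : X → Y)
    (hf : Continuous f) (EX : X → Set ℝ) (EY : Y → Set ℝ) (x : X)
    (h1 : ∀ l ∈ EY (f x), ∃ l₁ ∈ EX x, ∃ n : ℕ, 1 ≤ n ∧ n * l₁ + 1 ≤ l)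
    (h2 : ∀ x', ∀ l₁ ∈ EX x', ∀ w : ℕ, 1 ≤ w → ∃ l ∈ EY (f x'), l ≤ w * l₁ + 1)
    (h : LowerSemicontinuousAt (fun y => mm (EY y)) (f x)) :
    LowerSemicontinuousAt (fun x => mm (EX x)) x := by
  intro a ha
  have hneg : ¬ ∃ l ∈ EX x, l < 0 := by
    intro hn
    have : mm (EX x) = ⊥ := by
      unfold mm
      rw [if_pos hn]
    change a < mm (EX x) at ha
    rw [this] at ha
    exact absurd ha (by simp)
  have hnn : ∀ l ∈ EX x, (0 : ℝ) ≤ l := fun l hl => not_lt.1 fun hc => hneg ⟨l, hl, hc⟩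
  have hM0 : ((0 : ℝ) : EReal) ≤ mm (EX x) := Top.le_mm hnn hnn
  have hm : max a ((-1 : ℝ) : EReal) < mm (EX x) := by
    refine max_lt ha (lt_of_lt_of_le ?_ hM0)
    exact_mod_cast (by norm_num : (-1 : ℝ) < 0)
  obtain ⟨b', hb1, hb2⟩ := EReal.lt_iff_exists_real_btwn.1 hm
  obtain ⟨b, hb3, hb4⟩ := EReal.lt_iff_exists_real_btwn.1 hb1
  have hbb : b < b' := by exact_mod_cast hb4
  have hb0 : (-1 : ℝ) < b := by
    have := lt_of_le_of_lt (le_max_right a ((-1 : ℝ) : EReal)) hb3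
    exact_mod_cast this
  have hab : a < (b : EReal) := lt_of_le_of_lt (le_max_left _ _) hb3
  have hlb : ∀ l₁ ∈ EX x, max b' 0 ≤ l₁ := by
    intro l₁ hl₁
    refine max_le ?_ (hnn l₁ hl₁)
    have h3 : mm (EX x) ≤ (l₁ : EReal) := by
      unfold mm
      rw [if_neg hneg]
      exact iInf₂_le l₁ hl₁
    exact_mod_cast (lt_of_lt_of_le hb2 h3).le
  have hY : ∀ l ∈ EY (f x), b' + 1 ≤ l := by
    intro l hl
    obtain ⟨l₁, hl₁, n, hn, hle⟩ := h1 l hl
    have h4 := hlb l₁ hl₁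
    have h5 : b' ≤ l₁ := le_trans (le_max_left _ _) h4
    have h6 : (0 : ℝ) ≤ l₁ := hnn l₁ hl₁
    have h7 : (1 : ℝ) ≤ n := by exact_mod_cast hn
    have h8 : l₁ ≤ n * l₁ := by nlinarith
    linarith
  have hYlt : ((b + 1 : ℝ) : EReal) < mm (EY (f x)) := by
    refine lt_of_lt_of_le ?_ (Top.le_mm (c := b' + 1) (fun l hl => ?_) hY)
    · exact_mod_cast (by linarith : b + 1 < b' + 1)
    · have := hY l hl
      linarith
  have hev := hf.continuousAt.eventually (h _ hYlt)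
  refine hev.mono fun x' hx' => ?_
  have hx2 := Top.lt_mm (by linarith : (0 : ℝ) ≤ b + 1) hx'
  have hX0 : ∀ l₁ ∈ EX x', (0 : ℝ) ≤ l₁ := by
    intro l₁ hl₁
    by_contra hc
    push Not at hc
    obtain ⟨w, hw⟩ := exists_nat_gt (1 / (-l₁))
    have hl0 : 0 < -l₁ := by linarith
    have hw1 : (1 : ℝ) < w * (-l₁) := by
      rwa [div_lt_iff₀ hl0] at hw
    have hwpos : 1 ≤ w := by
      rcases Nat.eq_zero_or_pos w with hz | hz
      · exfalso
        rw [hz] at hw1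
        simp at hw1
        linarith
      · exact hz
    obtain ⟨l, hl, hle⟩ := h2 x' l₁ hl₁ w hwpos
    have := hx2 l hl
    nlinarith
  have hXb : ∀ l₁ ∈ EX x', b ≤ l₁ := by
    intro l₁ hl₁
    obtain ⟨l, hl, hle⟩ := h2 x' l₁ hl₁ 1 le_rfl
    have := hx2 l hl
    push_cast at hle
    linarith
  exact lt_of_lt_of_le hab (Top.le_mm hX0 hXb)

end TOP

end

end Pool.Agent.MLD.Mon
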