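import Pool.Agent.Lib.MP_f23696_ag.M.Key
import Pool.Agent.Lib.MP_f23696_ag.M2.Ctx
import Pool.Agent.Lib.MP_f23696_ag.M2.Chd
import Pool.Agent.Lib.MP_f23696_ag.M2.Top
import Pool.Agent.Lib.MP_f23696_ag.M2.Cone
import Pool.Agent.Lib.MP_f23696_ag.M2.Leq
import Pool.Agent.Lib.MP_f23696_ag.M2.Ldn
import Pool.Agent.Lib.MP_f23696_ag.M2.Lup
import Pool.Agent.Lib.MP_f23696_ag.M2.Joi
import Pool.Agent.Lib.MP_f23696_ag.M2.Grp
import Pool.Agent.Lib.MP_f23696_ag.M2.Grd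
import Pool.Agent.Lib.MP_f23696_ag.M2.Del
import Pool.Agent.Lib.MP_f23696_ag.M2.Fra
import Pool.Agent.Lib.MP_f23696_ag.T.Prod

/-!
FIN2 (project MON2, MP_f23696_ag): normal equivariant embeddings of `∏ GL_(n_i)`.
-/

set_option autoImplicit false

open scoped Classical Polynomial

namespace Pool.Agent.MLD.Mon

open Pool.Agent.MLD.Ten

noncomputable section

universe u v

section FIN2

variable {N m : ℕ} {k K : Type u} [Field k] [Field K] [Algebra k K]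

theorem Fin2.basis {B : Blk N m} (C : GC k K B) : IsTranscendenceBasis k C.y := by
  have halg : Algebra.IsAlgebraic (Algebra.adjoin k (Set.range C.y)) K := by
    constructor
    intro x
    have hx : x ∈ IntermediateField.adjoin k (Set.range C.y) := by rw [C.gen]; trivial
    obtain ⟨r, hr, s, hs, rfl⟩ := IntermediateField.mem_adjoin_iff_div.mp hx
    have h1 : IsAlgebraic (Algebra.adjoin k (Set.range C.y)) r :=
      isAlgebraic_algebraMap (⟨r, hr⟩ : Algebra.adjoin k (Set.range C.y))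
    have h2 : IsAlgebraic (Algebra.adjoin k (Set.range C.y)) s :=
      isAlgebraic_algebraMap (⟨s, hs⟩ : Algebra.adjoin k (Set.range C.y))
    rw [div_eq_mul_inv]
    exact h1.mul h2.inv
  rw [isTranscendenceBasis_iff_algebraicIndependent_isAlgebraic]
  exact ⟨C.ind, halg⟩

theorem final2 [IsAlgClosed k] [CharZero k] (b : Fin N → ℕ) (hb : Monotone b)
    (g : Matrix (Fin N) (Fin N) K) (hg : ∀ p q, b p ≠ b q → g p q = 0)
    (e : Fin (m + 1) ≃ {s : Fin N × Fin N // b s.1 = b s.2})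
    (hind : AlgebraicIndependent k fun i => g (e i).1.1 (e i).1.2)
    (hgen : IntermediateField.adjoin k (Set.range fun i => g (e i).1.1 (e i).1.2) = ⊤)
    (D : Fin (m + 1) → Derivation k K K)
    (hD : ∀ i j, D i (g (e j).1.1 (e j).1.2) = if i = j then 1 else 0)
    (T : Subalgebra k K[X]) (hfg : T.FG) [IsIntegrallyClosed T]
    (hgr : ∀ F ∈ T, ∀ n, Polynomial.monomial n (F.coeff n) ∈ T)
    (hT : ∀ σ : K ≃ₐ[k] K, IsTranslation b g σ → ∀ F ∈ T, F.map (σ : K →+* K) ∈ T)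
    (v : K) (hv : v ≠ 0) (hvT : Polynomial.monomial 1 v ∈ T)
    (A : Subalgebra k K) (hA : ∀ a, a ∈ A ↔ ∃ n : ℕ, Polynomial.monomial n (a * v ^ n) ∈ T)
    [IsFractionRing A K]
    (δ : Ideal A →₀ ℝ) (hδ0 : ∀ p, 0 ≤ δ p)
    (hδ : ∀ σ : K ≃ₐ[k] K, IsTranslation b g σ → ∀ p q : Ideal A, IsHeightOne p →
      IsHeightOne q → MapsLocal σ p q → δ p = δ q)
    (x : MaximalSpectrum A) (hRC : ∃ γ : Kˣ →₀ ℝ, IsLocalEq A D δ x.asIdeal γ) :
    LowerSemicontinuousAt (mld A D δ) x := by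
  obtain ⟨C, hCD, -, hCtra⟩ := exists_frame b hb g hg e hind hgen D hD
  subst hCD
  have hfrac : ∀ f : K, ∃ a b : A, (b : K) ≠ 0 ∧ f = (a : K) / b := by
    intro f
    obtain ⟨a, c, hc, hac⟩ := IsFractionRing.div_surjective (A := A) f
    refine ⟨a, c, ?_, hac.symm⟩
    have := nonZeroDivisors.ne_zero hc
    intro h
    exact this (Subtype.ext h)
  have hG : IsGr T v A := ⟨hfg, inferInstance, hgr, hv, hvT, hA, hfrac⟩
  obtain ⟨L, instL, instA, ⟨J⟩⟩ := exists_join (k := k) K (RatFunc k)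
  obtain ⟨Dj, hDj⟩ := joint_exists J C.D (fun _ : Fin 1 => Lin.dd k)
  obtain ⟨D', hD'1, hD'2⟩ := joi J v hv C.y C.gen C.D C.dual Dj hDj
  obtain ⟨B', C', hC'D, hC'⟩ := grp C J v hv D' hD'1
  have hcone : IsCone J A (T.map (th J v)) := grd J hG
  have hE : IsEmb C' (T.map (th J v)) := by
    refine ⟨hcone.good, fun τ hτ f hf => ?_⟩
    obtain ⟨σ, c, hσ, -, h1, h2⟩ := hC' τ hτ
    exact stb J hG τ σ c (fun F hF => hT σ ((hCtra σ).mp hσ) F hF) h1 h2 f hf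
  obtain ⟨δ', hδ'0, hδ'1, hδ'2, hδ'3⟩ := del C C' hcone hE v hC' δ hδ0
    (fun σ hσ => hδ σ ((hCtra σ).mp hσ))
  obtain ⟨f, hf, hlies⟩ := exists_pts hcone
  have hφv : J.φ v ≠ 0 := (map_ne_zero J.φ).mpr hv
  obtain ⟨γ, hγ⟩ := hRC
  have hloc : IsLocalEq (T.map (th J v)) Dj δ' (f x).asIdeal (push J.φ γ) :=
    leq hcone C.y C.D C.dual Dj hDj δ δ' hδ'1 hδ'2 (hlies x) hγ
  have hloc' : IsLocalEq (T.map (th J v)) C'.D δ' (f x).asIdeal
      (push J.φ γ - Finsupp.single (Units.mk0 (J.φ v) hφv) 1) := by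
    rw [hC'D, chd_leq Dj D' (J.φ v) hφv hD'2, sub_add_cancel]
    exact hloc
  have hlsc := lsc_at hE δ' hδ'0 hδ'3 (f x) ⟨_, hloc'⟩
  have hm : (fun z => mm (logDiscs (T.map (th J v)) Dj δ' z)) = mld (T.map (th J v)) C'.D δ' := by
    funext z
    rw [mld_eq_mm, hC'D, chd_logDiscs Dj D' (J.φ v) hφv hD'2]
  have hm' : (fun x => mm (logDiscs A C.D δ x)) = mld A C.D δ := by
    funext z
    rw [mld_eq_mm]
  rw [← hm']
  refine lsc_down f hf (logDiscs A C.D δ) (logDiscs (T.map (th J v)) Dj δ') x ?_ ?_ ?_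
  · exact ldn hcone C.y (Fin2.basis C) C.D C.dual Dj hDj δ δ' hδ'1 hδ'2 (hlies x) ⟨γ, hγ⟩
  · intro x' l₁ hl₁ w hw
    exact lup hcone C.y (Fin2.basis C) C.D C.dual Dj hDj δ δ' hδ'1 hδ'2 (hlies x') l₁ hl₁ w hw
  · rw [hm]
    exact hlsc

end FIN2

end

end Pool.Agent.MLD.Mon
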