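import Pool.Agent.Lib.MP_f23696_ag.M2.Ctx

/-!
Module GRD of the project MON2 (MP_f23696_ag): graded algebras.
-/

set_option autoImplicit false

open scoped Classical Polynomial

namespace Pool.Agent.MLD.Mon

open Pool.Agent.MLD.Ten

noncomputable section

universe u v

variable {k K L : Type u} [Field k] [Field K] [Field L] [Algebra k K] [Algebra k L]
  {J : Join k K (RatFunc k) L} {A : Subalgebra k K} {S : Subalgebra k L}

/-! ### GRD (M2/Grd.lean): graded algebras -/
section GRD

/-- the hypotheses on the graded algebra `T` and the chart `A` -/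
structure IsGr (T : Subalgebra k K[X]) (v : K) (A : Subalgebra k K) : Prop where
  fg : T.FG
  norm : IsIntegrallyClosed T
  gr : ∀ F ∈ T, ∀ n, Polynomial.monomial n (F.coeff n) ∈ T
  ne : v ≠ 0
  mem : Polynomial.monomial 1 v ∈ T
  chart : ∀ a, a ∈ A ↔ ∃ n : ℕ, Polynomial.monomial n (a * v ^ n) ∈ T
  frac : ∀ f : K, ∃ a b : A, (b : K) ≠ 0 ∧ f = (a : K) / b

namespace Grd

theorem s_ne (J : Join k K (RatFunc k) L) : ss J ≠ 0 := by
  intro h0
  exact RatFunc.X_ne_zero (J.ψ.injective (h0.trans (map_zero J.ψ).symm))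

theorem th_mon (J : Join k K (RatFunc k) L) (v : K) (n : ℕ) (a : K) :
    th J v (Polynomial.monomial n a) = J.φ a * tt J v ^ n := by
  change Polynomial.eval₂ (J.φ : K →+* L) (tt J v) (Polynomial.monomial n a) = _
  rw [Polynomial.eval₂_monomial]
  rfl

theorem tt_eq (J : Join k K (RatFunc k) L) (v : K) : tt J v = J.φ v⁻¹ * ss J := by
  rw [tt, map_inv₀, div_eq_mul_inv, mul_comm]

theorem th_mon' (J : Join k K (RatFunc k) L) {v : K} (hv : v ≠ 0) (n : ℕ) (a : K) :
    th J v (Polynomial.monomial n (a * v ^ n)) = J.φ a * ss J ^ n := by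
  rw [th_mon, tt_eq, mul_pow, ← map_pow, ← mul_assoc, ← map_mul, mul_assoc, ← mul_pow,
    mul_inv_cancel₀ hv, one_pow, mul_one]

theorem th_sum (J : Join k K (RatFunc k) L) (v : K) (F : K[X]) :
    th J v F = ∑ n ∈ F.support, J.φ (F.coeff n) * tt J v ^ n := by
  change Polynomial.eval₂ (J.φ : K →+* L) (tt J v) F = _
  rw [Polynomial.eval₂_eq_sum, Polynomial.sum_def]
  rfl

theorem th_s (J : Join k K (RatFunc k) L) {v : K} (hv : v ≠ 0) :
    th J v (Polynomial.monomial 1 v) = ss J := by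
  have h := th_mon' J hv 1 1
  rw [pow_one, pow_one, one_mul, map_one, one_mul] at h
  exact h

/-- the embedding of `K[X]` in the tensor product -/
def G (k K : Type u) [Field k] [Field K] [Algebra k K] : K[X] →ₐ[k] TensorProduct k K (RatFunc k) :=
  (Algebra.TensorProduct.map (AlgHom.id k K) (IsScalarTower.toAlgHom k k[X] (RatFunc k))).comp
    (polyEquivTensor k K).toAlgHom

theorem G_inj : Function.Injective (G k K) := by
  have h1 : Function.Injective
      (Algebra.TensorProduct.map (AlgHom.id k K) (IsScalarTower.toAlgHom k k[X] (RatFunc k))) := by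
    have h2 := Module.Flat.lTensor_preserves_injective_linearMap (M := K)
      (IsScalarTower.toAlgHom k k[X] (RatFunc k)).toLinearMap (RatFunc.algebraMap_injective k)
    intro a b hab
    apply h2
    have h3 : ∀ x, (LinearMap.lTensor K (IsScalarTower.toAlgHom k k[X] (RatFunc k)).toLinearMap) x =
        Algebra.TensorProduct.map (AlgHom.id k K) (IsScalarTower.toAlgHom k k[X] (RatFunc k)) x :=
      fun x => rfl
    rw [h3, h3, hab]
  exact h1.comp (polyEquivTensor k K).injective

theorem G_C (a : K) : G k K (Polynomial.C a) = a ⊗ₜ 1 := by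
  change Algebra.TensorProduct.map (AlgHom.id k K) (IsScalarTower.toAlgHom k k[X] (RatFunc k))
    (polyEquivTensor k K (Polynomial.C a)) = _
  rw [polyEquivTensor_apply, Polynomial.eval₂_C]
  change Algebra.TensorProduct.map _ _ (a ⊗ₜ[k] (1 : k[X])) = _
  rw [Algebra.TensorProduct.map_tmul, map_one]
  exact congrArg (fun x => x ⊗ₜ[k] (1 : RatFunc k)) rfl

theorem G_X : G k K Polynomial.X = 1 ⊗ₜ RatFunc.X := by
  change Algebra.TensorProduct.map (AlgHom.id k K) (IsScalarTower.toAlgHom k k[X] (RatFunc k))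
    (polyEquivTensor k K Polynomial.X) = _
  rw [polyEquivTensor_apply, Polynomial.eval₂_X, Algebra.TensorProduct.map_tmul, map_one]
  congr 1

/-- the scaling of the variable -/
def E (k : Type u) {K : Type u} [Field k] [Field K] [Algebra k K] (v : K) : K[X] →ₐ[k] K[X] :=
  (Polynomial.aeval (Polynomial.C v * Polynomial.X) : K[X] →ₐ[K] K[X]).restrictScalars k

theorem E_C (v a : K) : E k v (Polynomial.C a) = Polynomial.C a := by
  change Polynomial.aeval (Polynomial.C v * Polynomial.X) (Polynomial.C a) = _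
  rw [Polynomial.aeval_C]
  rfl

theorem E_X (v : K) : E k v Polynomial.X = Polynomial.C v * Polynomial.X := by
  change Polynomial.aeval (Polynomial.C v * Polynomial.X) Polynomial.X = _
  rw [Polynomial.aeval_X]

theorem E_inj {v : K} (hv : v ≠ 0) : Function.Injective (E k v) := by
  have h : (E k v⁻¹).comp (E k v) = AlgHom.id k K[X] := by
    apply Polynomial.algHom_ext'
    · apply AlgHom.ext
      intro a
      change E k v⁻¹ (E k v (Polynomial.C a)) = Polynomial.C a
      rw [E_C, E_C]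
    · change E k v⁻¹ (E k v Polynomial.X) = Polynomial.X
      rw [E_X, map_mul, E_C, E_X, ← mul_assoc, ← Polynomial.C_mul, mul_inv_cancel₀ hv,
        Polynomial.C_1, one_mul]
  intro a b hab
  have h1 : ∀ x, E k v⁻¹ (E k v x) = x := fun x => congrArg (fun g => g x) h
  rw [← h1 a, hab, h1]

theorem th_inj (J : Join k K (RatFunc k) L) {v : K} (hv : v ≠ 0) :
    Function.Injective (th J v) := by
  have h : th J v = (J.π.comp (G k K)).comp (E k v⁻¹) := by
    apply Polynomial.algHom_ext' (R := k)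
    · apply AlgHom.ext
      intro a
      change th J v (Polynomial.C a) = J.π (G k K (E k v⁻¹ (Polynomial.C a)))
      rw [E_C, G_C, Algebra.TensorProduct.productMap_apply_tmul, map_one, mul_one,
        ← Polynomial.monomial_zero_left, th_mon, pow_zero, mul_one]
    · change th J v Polynomial.X = J.π (G k K (E k v⁻¹ Polynomial.X))
      rw [E_X, map_mul, map_mul, G_C, G_X, Algebra.TensorProduct.productMap_apply_tmul,
        Algebra.TensorProduct.productMap_apply_tmul, map_one, map_one, mul_one, one_mul,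
        ← Polynomial.monomial_one_one_eq_X, th_mon, pow_one, map_one, one_mul, tt_eq]
      rfl
  rw [h]
  exact (J.inj.comp (G_inj (k := k) (K := K))).comp (E_inj (k := k) (inv_ne_zero hv))

variable {T : Subalgebra k K[X]} {v : K}

theorem s_mem (J : Join k K (RatFunc k) L) (h : IsGr T v A) : ss J ∈ T.map (th J v) :=
  ⟨Polynomial.monomial 1 v, h.mem, th_s J h.ne⟩

theorem φ_mem (J : Join k K (RatFunc k) L) (h : IsGr T v A) {a : K} (ha : a ∈ A) :
    ∃ n : ℕ, ss J ^ n * J.φ a ∈ T.map (th J v) := by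
  obtain ⟨n, hn⟩ := (h.chart a).1 ha
  refine ⟨n, Polynomial.monomial n (a * v ^ n), hn, ?_⟩
  rw [mul_comm (ss J ^ n)]
  exact th_mon' J h.ne n a

/-- polynomials in `s` -/
theorem ψ_mem (J : Join k K (RatFunc k) L) (h : IsGr T v A) (p : k[X]) :
    J.ψ (Lin.im p) ∈ T.map (th J v) := by
  rw [← Lin.aeval_im, ← Polynomial.aeval_algHom_apply]
  exact Algebra.adjoin_le (Set.singleton_subset_iff.2 (s_mem J h))
    (Polynomial.aeval_mem_adjoin_singleton k (ss J))

theorem fr (J : Join k K (RatFunc k) L) (h : IsGr T v A) (f : L) :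
    ∃ a b : T.map (th J v), (b : L) ≠ 0 ∧ f = (a : L) / b := by
  set S := T.map (th J v) with hS
  let F0 : Subfield L := Subfield.closure (S : Set L)
  have hF : ∀ x ∈ F0, ∃ a b : S, (b : L) ≠ 0 ∧ x = (a : L) / b := by
    intro x hx
    obtain ⟨y, hy, z, hz, hyz⟩ := Subfield.mem_closure_iff.1 hx
    have hc : Subring.closure (S : Set L) = S.toSubring := Subring.closure_eq S.toSubring
    rw [hc] at hy hz
    by_cases hz0 : z = 0
    · refine ⟨0, 1, one_ne_zero, ?_⟩
      rw [← hyz, hz0, div_zero]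
      simp
    · exact ⟨⟨y, hy⟩, ⟨z, hz⟩, hz0, hyz.symm⟩
  have hSF : ∀ x ∈ S, x ∈ F0 := fun x hx => Subfield.subset_closure hx
  have h1 : ∀ a ∈ A, J.φ a ∈ F0 := by
    intro a ha
    obtain ⟨n, hn⟩ := φ_mem J h ha
    have h2 : J.φ a = (ss J ^ n * J.φ a) / ss J ^ n := by
      rw [mul_div_cancel_left₀ _ (pow_ne_zero n (s_ne J))]
    rw [h2]
    exact div_mem (hSF _ hn) (pow_mem (hSF _ (s_mem J h)) n)
  have h2 : ∀ a : K, J.φ a ∈ F0 := by
    intro a
    obtain ⟨a1, b1, _, rfl⟩ := h.frac a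
    rw [map_div₀]
    exact div_mem (h1 _ a1.2) (h1 _ b1.2)
  have h3 : ∀ q : RatFunc k, J.ψ q ∈ F0 := by
    intro q
    rw [← RatFunc.num_div_denom q, map_div₀]
    exact div_mem (hSF _ (ψ_mem J h _)) (hSF _ (ψ_mem J h _))
  have h4 : ∀ x : TensorProduct k K (RatFunc k), J.π x ∈ F0 := by
    intro x
    induction x using TensorProduct.induction_on with
    | zero => rw [map_zero]; exact zero_mem _
    | tmul a b =>
      rw [Algebra.TensorProduct.productMap_apply_tmul]
      exact mul_mem (h2 a) (h3 b)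
    | add a b ha hb => rw [map_add]; exact add_mem ha hb
  obtain ⟨a, b, _, rfl⟩ := J.frac f
  exact hF _ (div_mem (h4 a) (h4 b))

theorem cl (J : Join k K (RatFunc k) L) (h : IsGr T v A) (f : L)
    (hf : IsIntegral (T.map (th J v)) f) : f ∈ T.map (th J v) := by
  have := h.norm
  have : IsIntegrallyClosed (T.map (th J v)) :=
    IsIntegrallyClosed.of_equiv (Subalgebra.equivMapOfInjective T (th J v) (th_inj J h.ne)).toRingEquiv
  have : IsFractionRing (T.map (th J v)) L :=
    IsFractionRing.of_field (T.map (th J v)) L fun z => by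
      obtain ⟨a, b, _, hab⟩ := fr J h z
      exact ⟨a, b, hab⟩
  obtain ⟨y, hy⟩ := (IsIntegrallyClosed.isIntegral_iff (R := T.map (th J v))).1 hf
  rw [← hy]
  exact y.2

theorem good (J : Join k K (RatFunc k) L) (h : IsGr T v A) : IsGood (T.map (th J v)) where
  fg := h.fg.map _
  frac := fr J h
  norm := cl J h

/-- evaluation at `v⁻¹` -/
def ev (k : Type u) {K : Type u} [Field k] [Field K] [Algebra k K] (v : K) : K[X] →ₐ[k] K :=
  (Polynomial.aeval v⁻¹ : K[X] →ₐ[K] K).restrictScalars k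

theorem coeff_mem (h : IsGr T v A) {F : K[X]} (hF : F ∈ T) (n : ℕ) :
    F.coeff n * v⁻¹ ^ n ∈ A := by
  refine (h.chart _).2 ⟨n, ?_⟩
  rw [mul_assoc, ← mul_pow, inv_mul_cancel₀ h.ne, one_pow, mul_one]
  exact h.gr F hF n

theorem A_eq (h : IsGr T v A) : A = T.map (ev k v) := by
  apply le_antisymm
  · intro a ha
    obtain ⟨n, hn⟩ := (h.chart a).1 ha
    refine ⟨_, hn, ?_⟩
    change Polynomial.aeval v⁻¹ (Polynomial.monomial n (a * v ^ n)) = a
    rw [Polynomial.aeval_monomial, Algebra.algebraMap_self, RingHom.id_apply, mul_assoc, ← mul_pow,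
      mul_inv_cancel₀ h.ne, one_pow, mul_one]
  · rintro _ ⟨F, hF, rfl⟩
    change Polynomial.aeval v⁻¹ F ∈ A
    rw [Polynomial.aeval_eq_sum_range]
    refine sum_mem fun n _ => ?_
    rw [smul_eq_mul]
    exact coeff_mem h hF n

/-- the powers of `s` -/
theorem pow_mem' (J : Join k K (RatFunc k) L) (h : IsGr T v A) {f : L} {n m : ℕ} (hnm : n ≤ m)
    (hf : ss J ^ n * f ∈ T.map (th J v)) : ss J ^ m * f ∈ T.map (th J v) := by
  rw [← Nat.sub_add_cancel hnm, pow_add, mul_assoc]
  exact mul_mem (pow_mem (s_mem J h) _) hf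

theorem norm₁ (J : Join k K (RatFunc k) L) (h : IsGr T v A) (f : K) (hf : IsIntegral A f) :
    f ∈ A := by
  obtain ⟨p, hp, hpf⟩ := hf
  set S := T.map (th J v) with hS
  -- a common denominator
  have hN : ∃ N : ℕ, ∀ i ∈ p.support, ss J ^ N * J.φ (p.coeff i) ∈ S := by
    have h1 : ∀ i, ∃ n : ℕ, ss J ^ n * J.φ (p.coeff i) ∈ S := fun i => φ_mem J h (p.coeff i).2
    choose n hn using h1
    exact ⟨p.support.sup n, fun i hi => pow_mem' J h (Finset.le_sup hi) (hn i)⟩
  obtain ⟨N, hN⟩ := hN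
  let g : A →+* L := (J.φ : K →+* L).comp (algebraMap A K)
  set q : L[X] := (p.map g).scaleRoots (ss J ^ N) with hq
  have hpm : (p.map g).Monic := hp.map g
  have hqm : q.Monic := (Polynomial.monic_scaleRoots_iff _).2 hpm
  have hqr : q.eval (ss J ^ N * J.φ f) = 0 := by
    have h2 : Polynomial.eval₂ (RingHom.id L) (J.φ f) (p.map g) = 0 := by
      rw [Polynomial.eval₂_map, RingHom.id_comp]
      have h3 := congrArg J.φ hpf
      rw [map_zero] at h3
      rw [← h3]
      exact (Polynomial.hom_eval₂ p (algebraMap A K) (J.φ : K →+* L) f).symm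
    have h4 := Polynomial.scaleRoots_eval₂_eq_zero (p := p.map g) (RingHom.id L) h2 (s := ss J ^ N)
    rw [RingHom.id_apply, Polynomial.eval₂_id] at h4
    exact h4
  have hqc : ∀ i, q.coeff i ∈ S := by
    intro i
    rw [hq, Polynomial.coeff_scaleRoots, Polynomial.coeff_map, hp.natDegree_map]
    by_cases hi : i ∈ p.support
    · rcases lt_or_ge i p.natDegree with hlt | hge
      · rw [← pow_mul]
        have h5 : g (p.coeff i) * ss J ^ (N * (p.natDegree - i)) =
            ss J ^ (N * (p.natDegree - i)) * J.φ (p.coeff i) := mul_comm _ _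
        rw [h5]
        exact pow_mem' J h (Nat.le_mul_of_pos_right N (Nat.sub_pos_of_lt hlt)) (hN i hi)
      · have h5 : i = p.natDegree := le_antisymm (Polynomial.le_natDegree_of_mem_supp i hi) hge
        rw [h5, hp.coeff_natDegree, map_one, Nat.sub_self, pow_zero, mul_one]
        exact one_mem _
    · rw [Polynomial.notMem_support_iff.1 hi, map_zero, zero_mul]
      exact zero_mem _
  have hl : q ∈ Polynomial.lifts (algebraMap S L) := by
    rw [Polynomial.lifts_iff_coeff_lifts]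
    exact fun i => ⟨⟨_, hqc i⟩, rfl⟩
  obtain ⟨r, hr, _, hrm⟩ := Polynomial.lifts_and_natDegree_eq_and_monic hl hqm
  have hint : IsIntegral S (ss J ^ N * J.φ f) := by
    refine ⟨r, hrm, ?_⟩
    rw [← Polynomial.eval_map, hr]
    exact hqr
  obtain ⟨F, hF, hF2⟩ := cl J h _ hint
  refine (h.chart f).2 ⟨N, ?_⟩
  have h6 : F = Polynomial.monomial N (f * v ^ N) := by
    apply th_inj J h.ne
    rw [th_mon' J h.ne, mul_comm]
    exact hF2
  rw [← h6]
  exact hF

theorem good₁ (J : Join k K (RatFunc k) L) (h : IsGr T v A) : IsGood A where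
  fg := by
    rw [A_eq h]
    exact h.fg.map _
  frac := h.frac
  norm := norm₁ J h

theorem le (J : Join k K (RatFunc k) L) (h : IsGr T v A) : T.map (th J v) ≤ S2 J A := by
  rintro _ ⟨F, hF, rfl⟩
  change th J v F ∈ S2 J A
  rw [th_sum]
  refine sum_mem fun n _ => ?_
  rw [tt_eq, mul_pow, ← mul_assoc, ← map_pow, ← map_mul]
  have h1 : J.φ (F.coeff n * v⁻¹ ^ n) ∈ S2 J A :=
    (le_sup_left : A.map J.φ ≤ S2 J A) ⟨_, coeff_mem h hF n, rfl⟩
  have h2 : ss J ∈ S2 J A :=
    (le_sup_right : (Lin.AA k).map J.ψ ≤ S2 J A) ⟨RatFunc.X, ⟨Polynomial.X, RatFunc.algebraMap_X⟩, rfl⟩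
  exact mul_mem h1 (pow_mem h2 n)

/-- the elements of `S[1/s]` -/
def D (J : Join k K (RatFunc k) L) (h : IsGr T v A) : Subalgebra k L where
  carrier := {f | ∃ n : ℕ, ss J ^ n * f ∈ T.map (th J v)}
  mul_mem' := by
    rintro a b ⟨n, hn⟩ ⟨m, hm⟩
    refine ⟨n + m, ?_⟩
    have h1 : ss J ^ (n + m) * (a * b) = (ss J ^ n * a) * (ss J ^ m * b) := by ring
    rw [h1]
    exact mul_mem hn hm
  add_mem' := by
    rintro a b ⟨n, hn⟩ ⟨m, hm⟩
    refine ⟨n + m, ?_⟩
    rw [mul_add]
    exact add_mem (pow_mem' J h (Nat.le_add_right n m) hn) (pow_mem' J h (Nat.le_add_left m n) hm)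
  algebraMap_mem' := fun c => ⟨0, by
    rw [pow_zero, one_mul]
    exact Subalgebra.algebraMap_mem _ c⟩

theorem den (J : Join k K (RatFunc k) L) (h : IsGr T v A) :
    ∀ f ∈ S2 J A, ∃ n : ℕ, ss J ^ n * f ∈ T.map (th J v) := by
  have h1 : S2 J A ≤ D J h := by
    refine sup_le ?_ ?_
    · rintro _ ⟨a, ha, rfl⟩
      exact φ_mem J h ha
    · rintro _ ⟨_, ⟨p, rfl⟩, rfl⟩
      refine ⟨0, ?_⟩
      rw [pow_zero, one_mul]
      exact ψ_mem J h p
  exact fun f hf => h1 hf

end Grd

theorem grd (J : Join k K (RatFunc k) L) {T : Subalgebra k K[X]} {v : K} (h : IsGr T v A) :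
    IsCone J A (T.map (th J v)) where
  good₁ := Grd.good₁ J h
  good := Grd.good J h
  mem := Grd.s_mem J h
  le := Grd.le J h
  den := Grd.den J h

theorem stb (J : Join k K (RatFunc k) L) {T : Subalgebra k K[X]} {v : K} (h : IsGr T v A)
    (τ : L ≃ₐ[k] L) (σ : K ≃ₐ[k] K) (c : k) (hσ : ∀ F ∈ T, F.map (σ : K →+* K) ∈ T)
    (h1 : ∀ a, τ (J.φ a) = J.φ (σ a)) (h2 : τ (tt J v) = algebraMap k L c * tt J v) :
    ∀ f ∈ T.map (th J v), τ f ∈ T.map (th J v) := by
  rintro _ ⟨F, hF, rfl⟩
  change τ (th J v F) ∈ _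
  rw [Grd.th_sum, map_sum]
  refine sum_mem fun n _ => ?_
  rw [map_mul, map_pow, h1, h2, mul_pow, ← map_pow]
  have h3 : J.φ (σ (F.coeff n)) * (algebraMap k L (c ^ n) * tt J v ^ n) =
      c ^ n • th J v (Polynomial.monomial n ((F.map (σ : K →+* K)).coeff n)) := by
    rw [Grd.th_mon, Polynomial.coeff_map, Algebra.smul_def]
    change _ = algebraMap k L (c ^ n) * (J.φ (σ (F.coeff n)) * tt J v ^ n)
    ring
  rw [h3]
  have h4 : th J v (Polynomial.monomial n ((F.map (σ : K →+* K)).coeff n)) ∈ T.map (th J v) :=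
    ⟨_, h.gr _ (hσ F hF) n, rfl⟩
  exact Subalgebra.smul_mem _ h4 _

end GRD

end

end Pool.Agent.MLD.Mon
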